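import Pool.Agent.W2helper21.ROG.Basic

/-!
# Coefficient polynomials and specialisations
-/

namespace Pool.Agent.W2helper21.ROG

open MvPolynomial

variable {F : Type*} [Field F] {σ : Type*} [DecidableEq σ]

/-- A sum of monomials indexed by a finite set of exponents. -/
noncomputable def msum (s : Finset (σ →₀ ℕ)) (g : (σ →₀ ℕ) → (σ →₀ ℕ))
    (c : (σ →₀ ℕ) → F) : MvPolynomial σ F := ∑ d ∈ s, monomial (g d) (c d)

theorem support_msum (s : Finset (σ →₀ ℕ)) (g : (σ →₀ ℕ) → (σ →₀ ℕ)) (c : (σ →₀ ℕ) → F) :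
    (msum s g c).support ⊆ s.image g := by
  classical
  intro e he
  rw [mem_support_iff, msum, coeff_sum] at he
  obtain ⟨d, hd, hne⟩ := Finset.exists_ne_zero_of_sum_ne_zero he
  rw [coeff_monomial] at hne
  have : g d = e := by
    by_contra h
    exact hne (if_neg h)
  exact Finset.mem_image.mpr ⟨d, hd, this⟩

theorem card_support_msum (s : Finset (σ →₀ ℕ)) (g : (σ →₀ ℕ) → (σ →₀ ℕ))
    (c : (σ →₀ ℕ) → F) : (msum s g c).support.card ≤ s.card := by
  classical
  exact (Finset.card_le_card (support_msum s g c)).trans Finset.card_image_le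

theorem vars_msum {s : Finset (σ →₀ ℕ)} {g : (σ →₀ ℕ) → (σ →₀ ℕ)} {c : (σ →₀ ℕ) → F}
    {i : σ} (hi : i ∈ (msum s g c).vars) : ∃ d ∈ s, i ∈ (g d).support := by
  rw [mem_vars_iff_mem_support] at hi
  obtain ⟨e, he, hie⟩ := hi
  obtain ⟨d, hd, rfl⟩ := Finset.mem_image.mp (support_msum s g c he)
  exact ⟨d, hd, hie⟩

/-- The coefficient of `Y_m ^ e` in `Ψ`, a polynomial in the other variables. -/
noncomputable def cf (m : σ) (e : ℕ) (Ψ : MvPolynomial σ F) : MvPolynomial σ F :=
  msum (Ψ.support.filter fun d => d m = e) (fun d => d.erase m) (fun d => coeff d Ψ)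

theorem coeff_cf (m : σ) (Ψ : MvPolynomial σ F) {d : σ →₀ ℕ} (hd : d ∈ Ψ.support) :
    coeff (d.erase m) (cf m (d m) Ψ) = coeff d Ψ := by
  classical
  rw [cf, msum, coeff_sum]
  rw [Finset.sum_eq_single d]
  · rw [coeff_monomial, if_pos rfl]
  · intro d' hd' hne
    rw [coeff_monomial, if_neg]
    intro h
    apply hne
    rw [Finset.mem_filter] at hd'
    ext i
    by_cases hi : i = m
    · subst hi; exact hd'.2
    · have := DFunLike.congr_fun h i
      rwa [Finsupp.erase_ne hi, Finsupp.erase_ne hi] at this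
  · intro h
    exact (h (Finset.mem_filter.mpr ⟨hd, rfl⟩)).elim

theorem cf_ne_zero (m : σ) (Ψ : MvPolynomial σ F) {d : σ →₀ ℕ} (hd : d ∈ Ψ.support) :
    cf m (d m) Ψ ≠ 0 := by
  intro h
  have := coeff_cf m Ψ hd
  rw [h, coeff_zero] at this
  exact (mem_support_iff.mp hd) this.symm

theorem vars_cf (m : σ) (e : ℕ) (Ψ : MvPolynomial σ F) : (cf m e Ψ).vars ⊆ Ψ.vars.erase m := by
  intro i hi
  obtain ⟨d, hd, hid⟩ := vars_msum hi
  rw [Finset.mem_filter] at hd
  rw [Finsupp.mem_support_iff] at hid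
  have him : i ≠ m := by
    rintro rfl
    apply hid
    simp
  rw [Finset.mem_erase]
  refine ⟨him, ?_⟩
  rw [mem_vars_iff_mem_support]
  refine ⟨d, hd.1, ?_⟩
  rw [Finsupp.mem_support_iff]
  rwa [Finsupp.erase_ne him] at hid

theorem card_cf (m : σ) (e : ℕ) (Ψ : MvPolynomial σ F) :
    (cf m e Ψ).support.card ≤ (Ψ.support.filter fun d => d m = e).card :=
  card_support_msum _ _ _

/-- The univariate polynomial `y ↦ Ψ(z with z_m := y)`. -/
noncomputable def lineU (m : σ) (z : σ → F) (Ψ : MvPolynomial σ F) : Polynomial F :=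
  aeval (Function.update (fun j => Polynomial.C (z j)) m Polynomial.X) Ψ

theorem eval_lineU (m : σ) (z : σ → F) (Ψ : MvPolynomial σ F) (y : F) :
    (lineU m z Ψ).eval y = eval (Function.update z m y) Ψ := by
  rw [lineU, ← Polynomial.coe_evalRingHom, ← MvPolynomial.aeval_eq_eval]
  change (Polynomial.evalRingHom y) ((aeval _) Ψ) = aeval _ Ψ
  rw [MvPolynomial.map_aeval]
  have h1 : (Polynomial.evalRingHom y).comp (algebraMap F (Polynomial F)) = RingHom.id F := by
    ext x; simp
  rw [h1, MvPolynomial.aeval_def]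
  have h2 : (fun i => (Polynomial.evalRingHom y)
      (Function.update (fun j => Polynomial.C (z j)) m Polynomial.X i)) =
      Function.update z m y := by
    funext i
    by_cases h : i = m
    · subst h; simp
    · simp [Function.update_of_ne h]
  rw [h2]
  rfl

section

variable [Fintype σ]

theorem prod_erase_pow (m : σ) (z : σ → F) (d : σ →₀ ℕ) :
    ((d.erase m).prod fun i k => z i ^ k) = ∏ i ∈ Finset.univ.erase m, z i ^ d i := by
  rw [Finsupp.prod_fintype _ _ (by intro i; simp)]
  rw [← Finset.mul_prod_erase Finset.univ _ (Finset.mem_univ m)]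
  simp only [Finsupp.erase_same, pow_zero, one_mul]
  apply Finset.prod_congr rfl
  intro i hi
  rw [Finset.mem_erase] at hi
  rw [Finsupp.erase_ne hi.1]

theorem eval_cf (m : σ) (e : ℕ) (z : σ → F) (Ψ : MvPolynomial σ F) :
    eval z (cf m e Ψ) =
      ∑ d ∈ Ψ.support.filter (fun d => d m = e),
        coeff d Ψ * ∏ i ∈ Finset.univ.erase m, z i ^ d i := by
  rw [cf, msum, map_sum]
  apply Finset.sum_congr rfl
  intro d _
  rw [eval_monomial, prod_erase_pow]

theorem lineU_eq (m : σ) (z : σ → F) (Ψ : MvPolynomial σ F) :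
    lineU m z Ψ = ∑ d ∈ Ψ.support,
      Polynomial.monomial (d m) (coeff d Ψ * ∏ i ∈ Finset.univ.erase m, z i ^ d i) := by
  rw [lineU, MvPolynomial.aeval_def, MvPolynomial.eval₂_eq']
  apply Finset.sum_congr rfl
  intro d _
  rw [← Finset.mul_prod_erase Finset.univ _ (Finset.mem_univ m)]
  rw [Function.update_self, ← Polynomial.C_mul_X_pow_eq_monomial, Polynomial.C_mul,
    map_prod]
  have : ∏ x ∈ Finset.univ.erase m,
      (Function.update (fun j => Polynomial.C (z j)) m Polynomial.X x) ^ d x =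
      ∏ x ∈ Finset.univ.erase m, Polynomial.C (z x ^ d x) := by
    apply Finset.prod_congr rfl
    intro i hi
    rw [Finset.mem_erase] at hi
    rw [Function.update_of_ne hi.1, Polynomial.C_pow]
  rw [this]
  change Polynomial.C (coeff d Ψ) * _ = _
  ring

theorem coeff_lineU (m : σ) (z : σ → F) (Ψ : MvPolynomial σ F) (e : ℕ) :
    (lineU m z Ψ).coeff e = eval z (cf m e Ψ) := by
  rw [lineU_eq, eval_cf, Polynomial.finset_sum_coeff, Finset.sum_filter]
  apply Finset.sum_congr rfl
  intro d _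
  rw [Polynomial.coeff_monomial]

end

/-- The specialisation of `Φ` which keeps the variables in `S` and puts `z j` for the others. -/
noncomputable def spec (S : Finset σ) (z : σ → F) (Φ : MvPolynomial σ F) : MvPolynomial σ F :=
  bind₁ (fun j => if j ∈ S then X j else C (z j)) Φ

theorem spec_eq (S : Finset σ) (z : σ → F) (Φ : MvPolynomial σ F) :
    spec S z Φ = msum Φ.support (fun d => d.filter (· ∈ S))
      (fun d => coeff d Φ * (d.filter (· ∉ S)).prod fun i k => z i ^ k) := by
  rw [msum]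
  conv_lhs => rw [spec, Φ.as_sum, map_sum]
  apply Finset.sum_congr rfl
  intro d _
  rw [bind₁_monomial]
  have h1 : ∏ i ∈ d.support, (if i ∈ S then (X i : MvPolynomial σ F) else C (z i)) ^ d i =
      (∏ i ∈ (d.filter (· ∈ S)).support, (X i : MvPolynomial σ F) ^ (d.filter (· ∈ S)) i) *
      C ((d.filter (· ∉ S)).prod fun i k => z i ^ k) := by
    rw [Finsupp.support_filter, Finsupp.prod, Finsupp.support_filter, map_prod]
    rw [← Finset.prod_filter_mul_prod_filter_not d.support (· ∈ S)]
    congr 1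
    · apply Finset.prod_congr rfl
      intro i hi
      rw [Finset.mem_filter] at hi
      rw [if_pos hi.2, Finsupp.filter_apply_pos _ _ hi.2]
    · apply Finset.prod_congr rfl
      intro i hi
      rw [Finset.mem_filter] at hi
      rw [if_neg hi.2, Finsupp.filter_apply_pos (fun i => i ∉ S) _ hi.2, C_pow]
  rw [h1, monomial_eq, C_mul]
  simp only [Finsupp.prod]
  ring

theorem card_spec (S : Finset σ) (z : σ → F) (Φ : MvPolynomial σ F) :
    (spec S z Φ).support.card ≤ Φ.support.card := by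
  rw [spec_eq]; exact card_support_msum _ _ _

theorem vars_spec (S : Finset σ) (z : σ → F) (Φ : MvPolynomial σ F) {i : σ}
    (hi : i ∈ (spec S z Φ).vars) : i ∈ Φ.vars ∧ i ∈ S := by
  rw [spec_eq] at hi
  obtain ⟨d, hd, hid⟩ := vars_msum hi
  rw [Finsupp.support_filter, Finset.mem_filter] at hid
  refine ⟨?_, hid.2⟩
  rw [mem_vars_iff_mem_support]
  exact ⟨d, hd, hid.1⟩

theorem totalDegree_spec (S : Finset σ) (z : σ → F) (Φ : MvPolynomial σ F) :
    (spec S z Φ).totalDegree ≤ Φ.totalDegree := by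
  rw [spec_eq]
  rw [totalDegree]
  apply Finset.sup_le
  intro e he
  obtain ⟨d, hd, rfl⟩ := Finset.mem_image.mp (support_msum _ _ _ he)
  refine le_trans ?_ (le_totalDegree hd)
  rw [Finsupp.sum, Finsupp.sum, Finsupp.support_filter]
  calc ∑ x ∈ d.support with x ∈ S, (d.filter (· ∈ S)) x
      = ∑ x ∈ d.support with x ∈ S, d x := by
        apply Finset.sum_congr rfl
        intro i hi
        rw [Finset.mem_filter] at hi
        rw [Finsupp.filter_apply_pos _ _ hi.2]
    _ ≤ ∑ x ∈ d.support, d x := Finset.sum_le_sum_of_subset (Finset.filter_subset _ _)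

theorem aeval_spec {τ : Type*} (S : Finset σ) (z : σ → F) (Φ : MvPolynomial σ F)
    (A : σ → MvPolynomial τ F) (h : ∀ j ∉ S, A j = C (z j)) :
    bind₁ A (spec S z Φ) = bind₁ A Φ := by
  rw [spec, bind₁_bind₁]
  congr 2
  funext j
  by_cases hj : j ∈ S
  · simp [hj]
  · simp [hj, h j hj]

end Pool.Agent.W2helper21.ROG
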