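import Mathlib

/-!
# Read-once formulas over arbitrary gates: generator and basic facts

The Shpilka–Volkovich generator, its image `Im k`, irreducibility of the image, coefficient
polynomials, and the one step lemma.
-/

namespace Pool.Agent.W2helper21.ROG

open MvPolynomial

section Lagrange

variable {F : Type*} [Field F]

/-- The `i`-th Lagrange polynomial on the nodes `0, 1, …, n - 1`, evaluated at `u`. -/
noncomputable def lag (n : ℕ) (u : F) (i : Fin n) : F :=
  ∏ j ∈ Finset.univ.erase i, (u - ((j : ℕ) : F)) / (((i : ℕ) : F) - ((j : ℕ) : F))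

theorem lag_node [CharZero F] (n : ℕ) (i : Fin n) :
    lag n (((i : ℕ) : F)) = Pi.single i 1 := by
  funext j
  unfold lag
  by_cases h : j = i
  · subst h
    rw [Pi.single_eq_same]
    apply Finset.prod_eq_one
    intro l hl
    apply div_self
    rw [Finset.mem_erase] at hl
    intro h0
    apply hl.1
    rw [sub_eq_zero, Nat.cast_inj] at h0
    exact Fin.ext h0.symm
  · rw [Pi.single_eq_of_ne h]
    apply Finset.prod_eq_zero (i := i)
    · rw [Finset.mem_erase]
      exact ⟨fun h' => h h'.symm, Finset.mem_univ _⟩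
    · simp

/-- The generator: `∑_{l < K} y_l L(u_l)`. -/
noncomputable def gen (n : ℕ) {K : ℕ} (u y : Fin K → F) : Fin n → F :=
  fun i => ∑ l, y l * lag n (u l) i

/-- The image of the generator with `k` pairs of seeds. -/
def Im (F : Type*) [Field F] (n k : ℕ) : Set (Fin n → F) :=
  {a | ∃ u y : Fin k → F, a = gen n u y}

theorem Im_zero (n : ℕ) : (0 : Fin n → F) ∈ Im F n 0 :=
  ⟨0, 0, by funext i; simp [gen]⟩

theorem Im_add {n k : ℕ} {a : Fin n → F} (ha : a ∈ Im F n k) (u y : F) :
    a + y • lag n u ∈ Im F n (k + 1) := by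
  obtain ⟨u', y', rfl⟩ := ha
  refine ⟨Fin.cons u u', Fin.cons y y', ?_⟩
  funext i
  simp [gen, Fin.sum_univ_succ, add_comm]

theorem Im_succ {n k : ℕ} {a : Fin n → F} (ha : a ∈ Im F n (k + 1)) :
    ∃ a' ∈ Im F n k, ∃ u y : F, a = a' + y • lag n u := by
  obtain ⟨u, y, rfl⟩ := ha
  refine ⟨gen n (fun l => u l.succ) (fun l => y l.succ), ⟨_, _, rfl⟩, u 0, y 0, ?_⟩
  funext i
  simp [gen, Fin.sum_univ_succ, add_comm]

theorem Im_single [CharZero F] {n k : ℕ} {a : Fin n → F} (ha : a ∈ Im F n k) (i : Fin n)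
    (t : F) : a + Pi.single i t ∈ Im F n (k + 1) := by
  have := Im_add ha (((i : ℕ) : F)) t
  rw [lag_node] at this
  have h2 : t • (Pi.single i 1 : Fin n → F) = Pi.single i t := by
    rw [← Pi.single_smul]; simp
  rwa [h2] at this

theorem Im_mono {n k l : ℕ} (hkl : k ≤ l) {a : Fin n → F} (ha : a ∈ Im F n k) :
    a ∈ Im F n l := by
  induction l, hkl using Nat.le_induction with
  | base => exact ha
  | succ m _ ih =>
    have := Im_add ih 0 0
    simpa using this

theorem zero_mem_Im (n k : ℕ) : (0 : Fin n → F) ∈ Im F n k := Im_mono (Nat.zero_le k) (Im_zero n)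

/-- Irreducibility of the image of the generator. -/
theorem Im_irred [Infinite F] {n k : ℕ} {ι : Type*} (s : Finset ι)
    (Q : ι → MvPolynomial (Fin n) F)
    (h : ∀ i ∈ s, ∃ a ∈ Im F n k, eval a (Q i) ≠ 0) :
    ∃ a ∈ Im F n k, ∀ i ∈ s, eval a (Q i) ≠ 0 := by
  classical
  let γ : Fin n → MvPolynomial (Fin k ⊕ Fin k) F := fun i =>
    ∑ l, X (Sum.inr l) * ∏ j ∈ Finset.univ.erase i,
      (X (Sum.inl l) - C ((j : ℕ) : F)) * C ((((i : ℕ) : F) - ((j : ℕ) : F))⁻¹)
  have hγ : ∀ z : Fin k ⊕ Fin k → F, (fun i => eval z (γ i)) =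
      gen n (fun l => z (Sum.inl l)) (fun l => z (Sum.inr l)) := by
    intro z
    funext i
    simp only [γ, gen, lag, map_sum, map_mul, map_prod, map_sub, eval_X, eval_C, div_eq_mul_inv]
  have hcomp : ∀ (z : Fin k ⊕ Fin k → F) (q : MvPolynomial (Fin n) F),
      eval z (bind₁ γ q) = eval (fun i => eval z (γ i)) q := by
    intro z q
    rw [← MvPolynomial.aeval_eq_eval, ← MvPolynomial.aeval_eq_eval]
    change (aeval z) (bind₁ γ q) = aeval (fun i => aeval z (γ i)) q
    rw [aeval_bind₁]
  have hne : (∏ i ∈ s, bind₁ γ (Q i)) ≠ 0 := by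
    rw [Finset.prod_ne_zero_iff]
    intro i hi h0
    obtain ⟨a, ⟨u, y, rfl⟩, ha⟩ := h i hi
    apply ha
    have := hcomp (Sum.elim u y) (Q i)
    rw [h0, hγ] at this
    simpa using this.symm
  obtain ⟨z, hz⟩ : ∃ z : Fin k ⊕ Fin k → F, eval z (∏ i ∈ s, bind₁ γ (Q i)) ≠ 0 := by
    by_contra hcon
    push Not at hcon
    apply hne
    apply MvPolynomial.funext
    intro x
    rw [hcon x, map_zero]
  refine ⟨_, ⟨fun l => z (Sum.inl l), fun l => z (Sum.inr l), rfl⟩, ?_⟩
  intro i hi
  rw [map_prod, Finset.prod_ne_zero_iff] at hz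
  have := hz i hi
  rwa [hcomp, hγ] at this

end Lagrange

section Univariate

variable {F : Type*} [Field F] [Infinite F]

theorem fiber_finite (q : Polynomial F) {t t' : F} (h : q.eval t ≠ q.eval t') (c : F) :
    {x | q.eval x = c}.Finite := by
  have hne : q - Polynomial.C c ≠ 0 := by
    intro h0
    apply h
    have : q = Polynomial.C c := sub_eq_zero.mp h0
    rw [this]; simp
  refine (Polynomial.finite_setOf_isRoot hne).subset ?_
  intro x hx
  simp only [Set.mem_setOf_eq] at hx
  simp [Polynomial.IsRoot, hx]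

theorem range_infinite (q : Polynomial F) {t t' : F} (h : q.eval t ≠ q.eval t') :
    (Set.range fun x => q.eval x).Infinite := by
  intro hfin
  have : (Set.univ : Set F) ⊆ ⋃ c ∈ (Set.range fun x => q.eval x), {x | q.eval x = c} := by
    intro x _
    simp only [Set.mem_iUnion, Set.mem_setOf_eq]
    exact ⟨q.eval x, ⟨x, rfl⟩, rfl⟩
  exact Set.infinite_univ ((hfin.biUnion fun c _ => fiber_finite q h c).subset this)

/-- a nonzero polynomial is nonzero at some value of a nonconstant polynomial -/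
theorem exists_ne_zero (ψ α : Polynomial F) (hψ : ψ ≠ 0) {t t' : F}
    (h : α.eval t ≠ α.eval t') : ∃ x, ψ.eval (α.eval x) ≠ 0 := by
  by_contra hcon
  push Not at hcon
  apply range_infinite α h
  refine (Polynomial.finite_setOf_isRoot hψ).subset ?_
  rintro _ ⟨x, rfl⟩
  exact hcon x

end Univariate

end Pool.Agent.W2helper21.ROG
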