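import Pool.Agent.W2helper21.ROG.Orders

/-!
# The main claim

If `P_1, …, P_M` are homogeneous polynomials in pairwise disjoint sets of variables which do not
vanish on the image of the generator with `k` pairs of seeds, and `Φ ≠ 0` has a Newton polytope of
dimension at most `k`, then `Φ(P_1, …, P_M)` does not vanish there either.
-/

namespace Pool.Agent.W2helper21.ROG

open MvPolynomial

variable {F : Type*} [Field F] [CharZero F] {n : ℕ}

theorem exists_part_ne_zero {M : ℕ} {Φ : MvPolynomial (Fin M) F} (hΦ : Φ ≠ 0) (o : Fin M → ℕ) :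
    ∃ N, (∀ α ∈ Φ.support, N ≤ wt o α) ∧ part o N Φ ≠ 0 := by
  obtain ⟨α, hα, hmin⟩ := Finset.exists_min_image Φ.support (wt o) (support_nonempty.mpr hΦ)
  refine ⟨wt o α, hmin, ?_⟩
  intro h
  have : α ∈ (part o (wt o α) Φ).support := mem_support_part.mpr ⟨hα, rfl⟩
  rw [h] at this
  simp at this

/-- the combinatorial heart: some order vector is not orthogonal to `nspace Φ` -/
theorem exists_node {M : ℕ} {k : ℕ} (Φ : MvPolynomial (Fin M) F)
    (P : Fin M → MvPolynomial (Fin n) F)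
    (hdisj : Pairwise fun j j' => Disjoint (P j).vars (P j').vars)
    (hNZ : ∀ m ∈ Φ.vars, NZ (k + 1) (P m))
    {δ : Fin M → ℚ} (hδ : δ ∈ nspace Φ) {m₀ : Fin M} (hm₀ : δ m₀ ≠ 0) (hm₀' : ¬ NZ k (P m₀))
    (hO : ∀ δ ∈ nspace Φ, pair (fun m => ordY k (P m)) δ = 0) :
    ∃ c : F, ∃ δ ∈ nspace Φ, pair (fun m => ordW k (P m) (ordY k (P m)) c) δ ≠ 0 := by
  classical
  by_contra hcon
  push Not at hcon
  -- we may assume that `δ m₀ > 0`
  wlog hpos : 0 < δ m₀ generalizing δ with H
  · refine H (δ := -δ) (Submodule.neg_mem _ hδ) (by simpa using hm₀) ?_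
    rw [Pi.neg_apply]
    have := lt_of_le_of_ne (not_lt.mp hpos) hm₀
    linarith
  let S : Finset (Fin M) := Finset.univ.filter fun m => 0 < δ m ∧ ¬ NZ k (P m)
  let V : Finset (Fin n) := S.biUnion fun m => (P m).vars
  let u : Fin M → Fin n → ℤ := fun m j => (ordW k (P m) (ordY k (P m)) ((j : ℕ) : F) : ℤ)
  let o : Fin M → ℤ := fun m => (ordY k (P m) : ℤ)
  let W : Fin M → ℤ := fun m => ∑ j ∈ V, (u m j - o m)
  have hsum : ∑ m, δ m * (W m : ℚ) = 0 := by
    have h1 : ∀ j : Fin n, ∑ m, δ m * ((u m j - o m : ℤ) : ℚ) = 0 := by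
      intro j
      have h2 := hcon ((j : ℕ) : F) δ hδ
      have h3 := hO δ hδ
      rw [pair_apply] at h2 h3
      have h4 : ∑ m, δ m * ((u m j - o m : ℤ) : ℚ) =
          (∑ m, ((ordW k (P m) (ordY k (P m)) ((j : ℕ) : F) : ℕ) : ℚ) * δ m) -
          ∑ m, ((ordY k (P m) : ℕ) : ℚ) * δ m := by
        rw [← Finset.sum_sub_distrib]
        apply Finset.sum_congr rfl
        intro m _
        simp only [u, o]
        push_cast
        ring
      rw [h4, h2, h3, sub_zero]
    calc ∑ m, δ m * (W m : ℚ) = ∑ m, ∑ j ∈ V, δ m * ((u m j - o m : ℤ) : ℚ) := by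
          apply Finset.sum_congr rfl
          intro m _
          simp only [W]
          rw [Int.cast_sum, Finset.mul_sum]
      _ = ∑ j ∈ V, ∑ m, δ m * ((u m j - o m : ℤ) : ℚ) := Finset.sum_comm
      _ = 0 := Finset.sum_eq_zero fun j _ => h1 j
  have hvars : ∀ m, δ m ≠ 0 → m ∈ Φ.vars := by
    intro m hm
    by_contra h
    exact hm (eq_zero_of_mem_nspace hδ h)
  -- each term is nonpositive, and the term of `m₀` is negative
  have hneg : ∀ m ∈ S, W m < 0 := by
    intro m hm
    have hm' := (Finset.mem_filter.mp hm).2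
    have hmv := hvars m hm'.1.ne'
    have h1 := ordY_spec (hNZ m hmv)
    have h2 := sum_ordW h1
    have h3 := ordY_pos (hNZ m hmv) hm'.2
    have hVm : (P m).vars ⊆ V := Finset.subset_biUnion_of_mem (fun m => (P m).vars) hm
    have h4 : W m ≤ ∑ j : Fin n, (u m j - o m) := by
      apply Finset.sum_le_sum_of_subset_of_nonneg (Finset.subset_univ _)
      intro j _ hj
      have := ordW_ge (fun h => hj (hVm h)) h1
      simp only [u, o]
      omega
    have h5 : ∑ j : Fin n, (u m j - o m) =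
        ((∑ j : Fin n, ordW k (P m) (ordY k (P m)) ((j : ℕ) : F) : ℕ) : ℤ) - n * o m := by
      rw [Finset.sum_sub_distrib]
      simp only [u, Finset.sum_const, Finset.card_univ, Fintype.card_fin, nsmul_eq_mul]
      push_cast
      rfl
    have hn : 0 < n := by
      by_contra hn0
      have hn0 : n = 0 := by omega
      subst hn0
      -- without variables the vanishing on the image is independent of `k`
      obtain ⟨a, ha, hne⟩ := hNZ m hmv
      apply hm'.2
      refine ⟨0, zero_mem_Im _ _, ?_⟩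
      have : a = 0 := Subsingleton.elim _ _
      rwa [this] at hne
    have h6 : ((∑ j : Fin n, ordW k (P m) (ordY k (P m)) ((j : ℕ) : F) : ℕ) : ℤ) ≤
        o m * (n - 1) := by
      have : ((ordY k (P m) * (n - 1) : ℕ) : ℤ) = o m * (n - 1) := by
        simp only [o]
        push_cast
        rw [Nat.cast_sub hn]
        push_cast
        ring
      rw [← this]
      exact_mod_cast h2
    have h7 : (1 : ℤ) ≤ o m := by simp only [o]; exact_mod_cast h3
    have h8 : o m * ((n : ℤ) - 1) = n * o m - o m := by ring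
    calc W m ≤ ((∑ j : Fin n, ordW k (P m) (ordY k (P m)) ((j : ℕ) : F) : ℕ) : ℤ) - n * o m := by
          rw [← h5]; exact h4
      _ ≤ - o m := by linarith
      _ < 0 := by linarith
  have hle : ∀ m, δ m * (W m : ℚ) ≤ 0 := by
    intro m
    by_cases hδm : δ m = 0
    · rw [hδm, zero_mul]
    have hmv := hvars m hδm
    by_cases hz : NZ k (P m)
    · have : W m = 0 := by
        simp only [W, u, o]
        apply Finset.sum_eq_zero
        intro j _
        rw [ordY_of_NZ hz, ordW_of_NZ hz]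
        simp
      rw [this]; simp
    · rcases lt_or_gt_of_ne hδm with hlt | hgt
      · -- `m ∉ S`, so the nodes in `V` are not in `(P m).vars`
        have h1 := ordY_spec (hNZ m hmv)
        have hW : 0 ≤ W m := by
          apply Finset.sum_nonneg
          intro j hj
          have hjm : j ∉ (P m).vars := by
            intro hjm
            rw [Finset.mem_biUnion] at hj
            obtain ⟨m', hm', hjm'⟩ := hj
            have hne : m' ≠ m := by
              rintro rfl
              exact absurd (Finset.mem_filter.mp hm').2.1 (not_lt.mpr hlt.le)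
            exact Finset.disjoint_left.mp (hdisj hne) hjm' hjm
          have := ordW_ge hjm h1
          simp only [u, o]
          omega
        have : (0 : ℚ) ≤ (W m : ℚ) := by exact_mod_cast hW
        exact mul_nonpos_of_nonpos_of_nonneg hlt.le this
      · have hm : m ∈ S := Finset.mem_filter.mpr ⟨Finset.mem_univ _, hgt, hz⟩
        have : (W m : ℚ) < 0 := by exact_mod_cast hneg m hm
        exact mul_nonpos_of_nonneg_of_nonpos hgt.le this.le
  have hlt : δ m₀ * (W m₀ : ℚ) < 0 := by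
    have hm : m₀ ∈ S := Finset.mem_filter.mpr ⟨Finset.mem_univ _, hpos, hm₀'⟩
    have : (W m₀ : ℚ) < 0 := by exact_mod_cast hneg m₀ hm
    exact mul_neg_of_pos_of_neg hpos this
  have : ∑ m, δ m * (W m : ℚ) < 0 := by
    calc ∑ m, δ m * (W m : ℚ) < ∑ _m : Fin M, (0 : ℚ) :=
          Finset.sum_lt_sum (fun m _ => hle m) ⟨m₀, Finset.mem_univ _, hlt⟩
      _ = 0 := by simp
  exact absurd hsum this.ne

/-- monomials -/
theorem claim_monomial {M k : ℕ} (Φ : MvPolynomial (Fin M) F) (hΦ : Φ ≠ 0)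
    (P : Fin M → MvPolynomial (Fin n) F) (hNZ : ∀ m ∈ Φ.vars, NZ k (P m))
    (h : nspace Φ = ⊥) : NZ k (bind₁ P Φ) := by
  obtain ⟨α, hα⟩ := support_nonempty.mpr hΦ
  have hΦ' : Φ = monomial α (coeff α Φ) := by
    ext β
    rw [coeff_monomial]
    by_cases hβ : β ∈ Φ.support
    · rw [eq_of_nspace_bot h hα hβ, if_pos rfl]
    · have hne : α ≠ β := fun h' => hβ (h' ▸ hα)
      rw [if_neg hne]
      exact notMem_support_iff.mp hβ
  obtain ⟨a, ha, hne⟩ := Im_irred (F := F) (n := n) (k := k) α.support P (by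
    intro m hm
    exact hNZ m ((mem_vars_iff_mem_support _).mpr ⟨α, hα, hm⟩))
  refine ⟨a, ha, ?_⟩
  rw [eval_bind, hΦ', eval_monomial]
  refine mul_ne_zero (mem_support_iff.mp hα) ?_
  rw [Finsupp.prod, Finset.prod_ne_zero_iff]
  intro m hm
  exact pow_ne_zero _ (hne m hm)

/-- Case B of the induction step. -/
theorem claim_caseB {M k : ℕ} (Φ : MvPolynomial (Fin M) F) (hΦ : Φ ≠ 0)
    (P : Fin M → MvPolynomial (Fin n) F) (p : Fin M → ℕ)
    (hdisj : Pairwise fun j j' => Disjoint (P j).vars (P j').vars)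
    (hhom : ∀ m ∈ Φ.vars, Hom (p m) (P m)) (hpos : ∀ m ∈ Φ.vars, p m ≠ 0)
    (hNZ : ∀ m ∈ Φ.vars, NZ (k + 1) (P m))
    (ih : ∀ (Ψ : MvPolynomial (Fin M) F) (Q : Fin M → MvPolynomial (Fin n) F) (q : Fin M → ℕ),
      Ψ ≠ 0 → (Pairwise fun j j' => Disjoint (Q j).vars (Q j').vars) →
      (∀ m ∈ Ψ.vars, Hom (q m) (Q m)) → (k ≠ 0 → ∀ m ∈ Ψ.vars, q m ≠ 0) →
      (∀ m ∈ Ψ.vars, NZ k (Q m)) → Module.finrank ℚ (nspace Ψ) ≤ k → NZ k (bind₁ Q Ψ))
    (hdim : Module.finrank ℚ (nspace Φ) ≤ k + 1)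
    {δ : Fin M → ℚ} (hδ : δ ∈ nspace Φ) {m₀ : Fin M} (hm₀ : δ m₀ ≠ 0) (hm₀' : ¬ NZ k (P m₀)) :
    NZ (k + 1) (bind₁ P Φ) := by
  classical
  by_contra hcon
  have hvan : ∀ x ∈ Im F n (k + 1), eval (fun m => eval x (P m)) Φ = 0 := by
    intro x hx
    by_contra hne
    exact hcon ⟨x, hx, by rwa [eval_bind]⟩
  set o : Fin M → ℕ := fun m => ordY k (P m) with ho
  obtain ⟨N, hN, hpart⟩ := exists_part_ne_zero hΦ o
  -- first degeneration
  have hvan1 : ∀ a ∈ Im F n k, ∀ w : F,
      eval (fun m => (cw (P m) (o m) a).eval w) (part o N Φ) = 0 := by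
    intro a ha w
    have h1 : aeval (fun m => dir a (lag n w) (P m)) Φ = (0 : Polynomial F) := by
      apply Polynomial.funext
      intro y
      rw [Polynomial.eval_zero, ← hvan _ (Im_add ha w y)]
      have h2 : (aeval (fun m => dir a (lag n w) (P m)) Φ : Polynomial F).eval y =
          Polynomial.aeval y (aeval (fun m => dir a (lag n w) (P m)) Φ : Polynomial F) := by
        rw [Polynomial.coe_aeval_eq_eval]
      rw [h2, MvPolynomial.comp_aeval_apply, ← MvPolynomial.aeval_eq_eval]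
      change aeval _ Φ = aeval _ Φ
      congr 2
      funext m
      rw [Polynomial.coe_aeval_eq_eval, eval_dir]
    have h3 := coeff_init (o := o) (N := N) (Φ := Φ)
      (p := fun m => dir a (lag n w) (P m)) (by
        intro m _ i hi
        rw [← eval_cw, ordY_min hi ha, Polynomial.eval_zero]) hN
    rw [h1, Polynomial.coeff_zero] at h3
    rw [h3]
    congr 2
    funext m
    rw [eval_cw]
  have hcwne : ∀ m ∈ Φ.vars, ∃ a ∈ Im F n k, cw (P m) (o m) a ≠ 0 := fun m hm =>
    ordY_spec (hNZ m hm)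
  have hole : ∀ m ∈ Φ.vars, o m ≤ p m := fun m hm => ordY_le (hhom m hm) (hNZ m hm)
  have hopos : k ≠ 0 → ∀ m ∈ Φ.vars, p m - o m ≠ 0 := by
    intro hk m hm
    have := ordY_lt (hhom m hm) (hpos m hm) hk (hNZ m hm)
    simp only [ho]
    omega
  have htcdisj : ∀ (c : F) (ρ : Fin M → ℕ),
      Pairwise fun j j' => Disjoint (tc (P j) (o j) c (ρ j)).vars (tc (P j') (o j') c (ρ j')).vars := by
    intro c ρ j j' hjj
    exact Finset.disjoint_of_subset_left (vars_tc _ _ _ _)
      (Finset.disjoint_of_subset_right (vars_tc _ _ _ _) (hdisj hjj))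
  by_cases hO : ∃ δ ∈ nspace Φ, pair o δ ≠ 0
  · -- the dimension drops; use a generic value of `w`
    obtain ⟨δ', hδ', hne⟩ := hO
    choose! A hA hA' using hcwne
    have hprod : (∏ m ∈ Φ.vars, cw (P m) (o m) (A m)) ≠ 0 := by
      rw [Finset.prod_ne_zero_iff]
      exact hA'
    obtain ⟨w, hw⟩ : ∃ w : F, (∏ m ∈ Φ.vars, cw (P m) (o m) (A m)).eval w ≠ 0 := by
      by_contra hcon2
      push Not at hcon2
      apply hprod
      apply Polynomial.funext
      intro w
      rw [hcon2 w, Polynomial.eval_zero]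
    rw [Polynomial.eval_prod, Finset.prod_ne_zero_iff] at hw
    have hev : ∀ (m : Fin M) (a : Fin n → F),
        eval a (tc (P m) (o m) w 0) = (cw (P m) (o m) a).eval w := by
      intro m a
      rw [eval_tc, Polynomial.taylor_coeff_zero]
    obtain ⟨a, ha, hane⟩ := ih (part o N Φ) (fun m => tc (P m) (o m) w 0)
      (fun m => p m - o m) hpart (htcdisj w fun _ => 0)
      (fun m hm => hom_tc (hhom m (vars_part hm)) (hole m (vars_part hm)) w 0)
      (fun hk m hm => hopos hk m (vars_part hm))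
      (fun m hm => ⟨A m, hA m (vars_part hm), by
        rw [hev]; exact hw m (vars_part hm)⟩)
      (by
        have := finrank_part_lt (N := N) hδ' hne
        omega)
    apply hane
    rw [eval_bind, ← hvan1 a ha w]
    congr 2
    funext m
    rw [hev]
  · -- use a node
    push Not at hO
    obtain ⟨c, δ', hδ', hne⟩ := exists_node Φ P hdisj hNZ hδ hm₀ hm₀' hO
    have hself : part o N Φ = Φ := by
      obtain ⟨α, hα⟩ := support_nonempty.mpr hpart
      rw [mem_support_part] at hα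
      apply part_eq_self
      intro β hβ
      have h1 := hO _ (sub_mem_nspace hβ hα.1)
      rw [map_sub, pair_ev, pair_ev, hα.2] at h1
      have h2 : (wt o β : ℚ) = (N : ℚ) := by linarith
      exact_mod_cast h2
    rw [hself] at hvan1
    set u : Fin M → ℕ := fun m => ordW k (P m) (o m) c with hu
    obtain ⟨N', hN', hpart'⟩ := exists_part_ne_zero hΦ u
    have hvan2 : ∀ a ∈ Im F n k,
        eval (fun m => (Polynomial.taylor c (cw (P m) (o m) a)).coeff (u m)) (part u N' Φ) = 0 := by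
      intro a ha
      have h1 : aeval (fun m => Polynomial.taylor c (cw (P m) (o m) a)) Φ =
          (0 : Polynomial F) := by
        apply Polynomial.funext
        intro y
        rw [Polynomial.eval_zero, ← hvan1 a ha (y + c)]
        have h2 : (aeval (fun m => Polynomial.taylor c (cw (P m) (o m) a)) Φ :
            Polynomial F).eval y = Polynomial.aeval y
              (aeval (fun m => Polynomial.taylor c (cw (P m) (o m) a)) Φ : Polynomial F) := by
          rw [Polynomial.coe_aeval_eq_eval]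
        rw [h2, MvPolynomial.comp_aeval_apply, ← MvPolynomial.aeval_eq_eval]
        change aeval _ Φ = aeval _ Φ
        congr 2
        funext m
        rw [Polynomial.coe_aeval_eq_eval, Polynomial.taylor_eval]
      have h3 := coeff_init (o := u) (N := N') (Φ := Φ)
        (p := fun m => Polynomial.taylor c (cw (P m) (o m) a)) (by
          intro m _ i hi
          exact ordW_min hi ha) hN'
      rw [h1, Polynomial.coeff_zero] at h3
      exact h3.symm
    obtain ⟨a, ha, hane⟩ := ih (part u N' Φ) (fun m => tc (P m) (o m) c (u m))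
      (fun m => p m - o m) hpart' (htcdisj c u)
      (fun m hm => hom_tc (hhom m (vars_part hm)) (hole m (vars_part hm)) c (u m))
      (fun hk m hm => hopos hk m (vars_part hm))
      (fun m hm => by
        obtain ⟨a, ha, hane⟩ := ordW_spec c (hcwne m (vars_part hm))
        exact ⟨a, ha, by rw [eval_tc]; exact hane⟩)
      (by
        have := finrank_part_lt (N := N') hδ' hne
        omega)
    apply hane
    rw [eval_bind, ← hvan2 a ha]
    congr 2
    funext m
    rw [eval_tc]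

/-- Case A of the induction step. -/
theorem claim_caseA {M k : ℕ} (Φ : MvPolynomial (Fin M) F) (hΦ : Φ ≠ 0)
    (P : Fin M → MvPolynomial (Fin n) F) (p : Fin M → ℕ)
    (hdisj : Pairwise fun j j' => Disjoint (P j).vars (P j').vars)
    (hhom : ∀ m ∈ Φ.vars, Hom (p m) (P m)) (hpos : ∀ m ∈ Φ.vars, p m ≠ 0)
    (hNZ : ∀ m ∈ Φ.vars, NZ (k + 1) (P m))
    (ih : ∀ (Ψ : MvPolynomial (Fin M) F) (Q : Fin M → MvPolynomial (Fin n) F) (q : Fin M → ℕ),
      Ψ ≠ 0 → (Pairwise fun j j' => Disjoint (Q j).vars (Q j').vars) →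
      (∀ m ∈ Ψ.vars, Hom (q m) (Q m)) → (k ≠ 0 → ∀ m ∈ Ψ.vars, q m ≠ 0) →
      (∀ m ∈ Ψ.vars, NZ k (Q m)) → Module.finrank ℚ (nspace Ψ) ≤ k → NZ k (bind₁ Q Ψ))
    (hdim : Module.finrank ℚ (nspace Φ) ≤ k + 1)
    (hA : ∀ δ ∈ nspace Φ, ∀ m, δ m ≠ 0 → NZ k (P m))
    {δ : Fin M → ℚ} (hδ : δ ∈ nspace Φ) {m₁ : Fin M} (hm₁ : δ m₁ ≠ 0) :
    NZ (k + 1) (bind₁ P Φ) := by
  classical
  let T : Finset (Fin M) := Finset.univ.filter fun m => ∃ δ ∈ nspace Φ, δ m ≠ 0
  have hmT : m₁ ∈ T := Finset.mem_filter.mpr ⟨Finset.mem_univ _, δ, hδ, hm₁⟩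
  have hvars : ∀ m ∈ T, m ∈ Φ.vars := by
    intro m hm
    obtain ⟨δ, hδ, hne⟩ := (Finset.mem_filter.mp hm).2
    by_contra h
    exact hne (eq_zero_of_mem_nspace hδ h)
  have hconst : ∀ m ∉ T, ∀ α ∈ Φ.support, ∀ β ∈ Φ.support, α m = β m := by
    intro m hm α hα β hβ
    by_contra hne
    apply hm
    refine Finset.mem_filter.mpr ⟨Finset.mem_univ _, _, sub_mem_nspace hα hβ, ?_⟩
    simp only [ev, Pi.sub_apply]
    intro h
    apply hne
    have : (α m : ℚ) = β m := by linarith
    exact_mod_cast this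
  obtain ⟨α₀, hα₀⟩ := support_nonempty.mpr hΦ
  set β₀ : Fin M →₀ ℕ := α₀.filter (· ∉ T) with hβ₀
  set Φ₁ : MvPolynomial (Fin M) F := spec T (fun _ => 1) Φ with hΦ₁
  have hspec : Φ₁ = msum Φ.support (fun d => d.filter (· ∈ T)) (fun d => coeff d Φ) := by
    rw [hΦ₁, spec_eq]
    congr 1
    funext d
    simp
  have hfac : Φ = monomial β₀ 1 * Φ₁ := by
    rw [hspec, msum, Finset.mul_sum]
    conv_lhs => rw [Φ.as_sum]
    apply Finset.sum_congr rfl
    intro α hα
    have hadd : β₀ + α.filter (· ∈ T) = α := by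
      ext m
      rw [Finsupp.add_apply]
      by_cases hm : m ∈ T
      · rw [Finsupp.filter_apply_pos (fun i => i ∈ T) _ hm, hβ₀,
          Finsupp.filter_apply_neg (fun i => i ∉ T) _ (not_not.mpr hm), zero_add]
      · rw [Finsupp.filter_apply_neg (fun i => i ∈ T) _ hm, hβ₀,
          Finsupp.filter_apply_pos (fun i => i ∉ T) _ hm, add_zero]
        exact hconst m hm α₀ hα₀ α hα
    rw [monomial_mul, one_mul, hadd]
  have hΦ₁ne : Φ₁ ≠ 0 := by
    intro h
    rw [h, mul_zero] at hfac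
    exact hΦ hfac
  have hE : E k (P m₁) := by
    obtain ⟨a, ha, hne⟩ := hA δ hδ m₁ hm₁
    obtain ⟨i, t, h⟩ := euler (hhom m₁ (hvars m₁ hmT)) (hpos m₁ (hvars m₁ hmT)) hne
    exact ⟨i, t, a, ha, h⟩
  obtain ⟨d, hd⟩ := support_nonempty.mpr hΦ₁ne
  have hΨ := cf_ne_zero m₁ Φ₁ hd
  set Ψ := cf m₁ (d m₁) Φ₁ with hΨdef
  have hΨvars : Ψ.vars ⊆ T := by
    intro i hi
    exact (vars_spec T _ Φ (Finset.mem_of_mem_erase (vars_cf _ _ _ hi))).2
  have hΨNZ : ∀ m ∈ Ψ.vars, NZ k (P m) := by
    intro m hm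
    obtain ⟨δ', hδ', hne⟩ := (Finset.mem_filter.mp (hΨvars hm)).2
    exact hA δ' hδ' m hne
  have hΨdim : Module.finrank ℚ (nspace Ψ) ≤ k := by
    have hlt : nspace Ψ < nspace Φ := by
      have hle : nspace Ψ ≤ nspace Φ ⊓
          LinearMap.ker (LinearMap.proj (R := ℚ) (φ := fun _ : Fin M => ℚ) m₁) := by
        apply nspace_le
        intro α hα β hβ
        have hsupp : ∀ γ ∈ Ψ.support, ∃ γ' ∈ Φ.support, γ' m₁ = d m₁ ∧
            γ = (γ'.filter (· ∈ T)).erase m₁ := by
          intro γ hγ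
          obtain ⟨γ₁, hγ₁, rfl⟩ := Finset.mem_image.mp (support_msum _ _ _ hγ)
          rw [Finset.mem_filter] at hγ₁
          have h1 := hγ₁.1
          rw [hspec] at h1
          obtain ⟨γ₂, hγ₂, rfl⟩ := Finset.mem_image.mp (support_msum _ _ _ h1)
          refine ⟨γ₂, hγ₂, ?_, rfl⟩
          have h2 := hγ₁.2
          rwa [Finsupp.filter_apply_pos (fun i => i ∈ T) _ hmT] at h2
        obtain ⟨α', hα', hαd, rfl⟩ := hsupp α hα
        obtain ⟨β', hβ', hβd, rfl⟩ := hsupp β hβ
        have heq : ev ((α'.filter (· ∈ T)).erase m₁) - ev ((β'.filter (· ∈ T)).erase m₁) =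
            ev α' - ev β' := by
          funext m
          simp only [ev, Pi.sub_apply]
          by_cases hm : m = m₁
          · subst hm
            rw [Finsupp.erase_same, Finsupp.erase_same, hαd, hβd]
            simp
          · rw [Finsupp.erase_ne hm, Finsupp.erase_ne hm]
            by_cases hmT' : m ∈ T
            · rw [Finsupp.filter_apply_pos (fun i => i ∈ T) _ hmT',
                Finsupp.filter_apply_pos (fun i => i ∈ T) _ hmT']
            · rw [Finsupp.filter_apply_neg (fun i => i ∈ T) _ hmT',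
                Finsupp.filter_apply_neg (fun i => i ∈ T) _ hmT', hconst m hmT' α' hα' β' hβ']
              simp
        rw [heq]
        refine ⟨sub_mem_nspace hα' hβ', ?_⟩
        change (ev α' - ev β') m₁ = 0
        simp only [ev, Pi.sub_apply, hαd, hβd, sub_self]
      refine lt_of_le_of_lt hle (lt_of_le_of_ne inf_le_left ?_)
      intro heq
      have : δ ∈ nspace Φ ⊓
          LinearMap.ker (LinearMap.proj (R := ℚ) (φ := fun _ : Fin M => ℚ) m₁) := by
        rw [heq]; exact hδ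
      exact hm₁ this.2
    have := Submodule.finrank_lt_finrank_of_lt hlt
    omega
  obtain ⟨a, ha, hne⟩ := ih Ψ P p hΨ hdisj (fun m hm => hhom m (hvars m (hΨvars hm)))
    (fun _ m hm => hpos m (hvars m (hΨvars hm))) hΨNZ hΨdim
  rw [eval_bind] at hne
  obtain ⟨b, hb, hbne⟩ := step hdisj Φ₁ m₁ (d m₁) le_rfl hE ⟨a, ha, hne⟩
  -- multiply by the monomial
  obtain ⟨c, hc, hcne⟩ := Im_irred (F := F) (n := n) (k := k + 1) (insert none (β₀.support.map
      Function.Embedding.some)) (fun m => match m with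
        | none => bind₁ P Φ₁
        | some m => P m) (by
    intro m hm
    rw [Finset.mem_insert] at hm
    rcases hm with rfl | hm
    · exact ⟨b, hb, by rw [eval_bind]; exact hbne⟩
    · rw [Finset.mem_map] at hm
      obtain ⟨m', hm', rfl⟩ := hm
      apply hNZ m'
      rw [mem_vars_iff_mem_support]
      refine ⟨α₀, hα₀, ?_⟩
      rw [hβ₀, Finsupp.support_filter, Finset.mem_filter] at hm'
      exact hm'.1)
  refine ⟨c, hc, ?_⟩
  rw [hfac, map_mul, map_mul]
  refine mul_ne_zero ?_ (hcne none (Finset.mem_insert_self _ _))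
  rw [eval_bind, eval_monomial, one_mul, Finsupp.prod, Finset.prod_ne_zero_iff]
  intro m hm
  apply pow_ne_zero
  exact hcne (some m) (Finset.mem_insert_of_mem (Finset.mem_map.mpr ⟨m, hm, rfl⟩))

/-- **The main claim.** -/
theorem main_claim (k : ℕ) : ∀ {M : ℕ} (Φ : MvPolynomial (Fin M) F)
    (P : Fin M → MvPolynomial (Fin n) F) (p : Fin M → ℕ), Φ ≠ 0 →
    (Pairwise fun j j' => Disjoint (P j).vars (P j').vars) →
    (∀ m ∈ Φ.vars, Hom (p m) (P m)) → (k ≠ 0 → ∀ m ∈ Φ.vars, p m ≠ 0) →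
    (∀ m ∈ Φ.vars, NZ k (P m)) → Module.finrank ℚ (nspace Φ) ≤ k → NZ k (bind₁ P Φ) := by
  induction k with
  | zero =>
    intro M Φ P p hΦ _ _ _ hNZ hdim
    apply claim_monomial Φ hΦ P hNZ
    exact Submodule.finrank_eq_zero.mp (Nat.le_zero.mp hdim)
  | succ k ih =>
    intro M Φ P p hΦ hdisj hhom hpos hNZ hdim
    by_cases hbot : nspace Φ = ⊥
    · exact claim_monomial Φ hΦ P hNZ hbot
    obtain ⟨δ, hδ, hδ0⟩ := Submodule.exists_mem_ne_zero_of_ne_bot hbot
    obtain ⟨m, hm⟩ : ∃ m, δ m ≠ 0 := by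
      by_contra hcon
      push Not at hcon
      exact hδ0 (funext hcon)
    by_cases hB : ∃ δ ∈ nspace Φ, ∃ m, δ m ≠ 0 ∧ ¬ NZ k (P m)
    · obtain ⟨δ', hδ', m₀, hm₀, hm₀'⟩ := hB
      exact claim_caseB Φ hΦ P p hdisj hhom (hpos (by omega)) hNZ
        (fun Ψ Q q h1 h2 h3 h4 h5 h6 => ih Ψ Q q h1 h2 h3 h4 h5 h6) hdim hδ' hm₀ hm₀'
    · push Not at hB
      exact claim_caseA Φ hΦ P p hdisj hhom (hpos (by omega)) hNZ
        (fun Ψ Q q h1 h2 h3 h4 h5 h6 => ih Ψ Q q h1 h2 h3 h4 h5 h6) hdim hB hδ hm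

end Pool.Agent.W2helper21.ROG
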