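import Pool.Agent.W2helper21.ROG.Coeff

/-!
# The property `E k P` and the gate lemmas
-/

namespace Pool.Agent.W2helper21.ROG

open MvPolynomial

variable {F : Type*} [Field F] [CharZero F] {n : ℕ}

/-- Some shift along a coordinate direction changes the value of `P` at some point of the image of
the generator with `k` pairs of seeds. -/
def E (k : ℕ) (P : MvPolynomial (Fin n) F) : Prop :=
  ∃ i : Fin n, ∃ t : F, ∃ a ∈ Im F n k, eval (a + Pi.single i t) P ≠ eval a P

omit [CharZero F] in
theorem E_mono {k l : ℕ} (hkl : k ≤ l) {P : MvPolynomial (Fin n) F} (h : E k P) : E l P := by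
  obtain ⟨i, t, a, ha, h⟩ := h
  exact ⟨i, t, a, Im_mono hkl ha, h⟩

omit [CharZero F] in
/-- evaluation depends on the variables only -/
theorem eval_congr_vars {σ : Type*} {P : MvPolynomial σ F} {a b : σ → F}
    (h : ∀ i ∈ P.vars, a i = b i) : eval a P = eval b P := by
  unfold eval
  exact eval₂Hom_congr' rfl (fun i hi _ => h i hi) rfl

omit [CharZero F] in
theorem mem_vars_of_eval_ne {P : MvPolynomial (Fin n) F} {a : Fin n → F} {i : Fin n} {t : F}
    (h : eval (a + Pi.single i t) P ≠ eval a P) : i ∈ P.vars := by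
  by_contra hi
  apply h
  apply eval_congr_vars
  intro j hj
  have : j ≠ i := fun h => hi (h ▸ hj)
  simp [this]

/-- The translated polynomial. -/
noncomputable def shift (v : Fin n → F) (P : MvPolynomial (Fin n) F) : MvPolynomial (Fin n) F :=
  bind₁ (fun j => X j + C (v j)) P

omit [CharZero F] in
theorem eval_bind {σ τ : Type*} (A : σ → MvPolynomial τ F) (P : MvPolynomial σ F)
    (z : τ → F) : eval z (bind₁ A P) = eval (fun i => eval z (A i)) P := by
  rw [← MvPolynomial.aeval_eq_eval, ← MvPolynomial.aeval_eq_eval]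
  change (aeval z) (bind₁ A P) = aeval (fun i => aeval z (A i)) P
  rw [aeval_bind₁]

omit [CharZero F] in
theorem eval_shift (v a : Fin n → F) (P : MvPolynomial (Fin n) F) :
    eval a (shift v P) = eval (a + v) P := by
  rw [shift, eval_bind]
  congr 1
  congr 1
  funext i
  simp

/-- the line through `a` in direction `i` -/
noncomputable def lineA (i : Fin n) (a : Fin n → F) (P : MvPolynomial (Fin n) F) :
    Polynomial F := (lineU i a P).comp (Polynomial.X + Polynomial.C (a i))

omit [CharZero F] in
theorem eval_lineA (i : Fin n) (a : Fin n → F) (P : MvPolynomial (Fin n) F) (t : F) :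
    (lineA i a P).eval t = eval (a + Pi.single i t) P := by
  rw [lineA, Polynomial.eval_comp, eval_lineU]
  congr 2
  funext j
  by_cases h : j = i
  · subst h; simp [add_comm]
  · simp [h]

section Step

variable {M : ℕ}

/-- values of the children after a shift in a private coordinate -/
theorem children_shift {A : Fin M → MvPolynomial (Fin n) F}
    (hdisj : Pairwise fun j j' => Disjoint (A j).vars (A j').vars) {m : Fin M} {i : Fin n}
    (hi : i ∈ (A m).vars) (a : Fin n → F) (t : F) :
    (fun j => eval (a + Pi.single i t) (A j)) =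
      Function.update (fun j => eval a (A j)) m (eval (a + Pi.single i t) (A m)) := by
  funext j
  by_cases h : j = m
  · subst h; simp
  · rw [Function.update_of_ne h]
    apply eval_congr_vars
    intro l hl
    have hli : l ≠ i := by
      rintro rfl
      exact (Finset.disjoint_left.mp (hdisj h) hl) hi
    simp [hli]

theorem step {A : Fin M → MvPolynomial (Fin n) F}
    (hdisj : Pairwise fun j j' => Disjoint (A j).vars (A j').vars)
    (Ψ : MvPolynomial (Fin M) F) (m : Fin M) (e : ℕ) {k k' : ℕ} (hk : k' ≤ k)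
    (hE : E k' (A m))
    (h : ∃ a ∈ Im F n k, eval (fun j => eval a (A j)) (cf m e Ψ) ≠ 0) :
    ∃ a ∈ Im F n (k + 1), eval (fun j => eval a (A j)) Ψ ≠ 0 := by
  obtain ⟨i, t, b, hb, hbne⟩ := hE
  obtain ⟨a, ha, hane⟩ := h
  obtain ⟨c, hc, hcne⟩ := Im_irred (F := F) (n := n) (k := k) (Finset.univ : Finset Bool)
    (fun s => if s then bind₁ A (cf m e Ψ) else shift (Pi.single i t) (A m) - A m) (by
      intro s _
      cases s with
      | true =>
        refine ⟨a, ha, ?_⟩
        simp only [if_true]
        rwa [eval_bind]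
      | false =>
        refine ⟨b, Im_mono hk hb, ?_⟩
        simp only [Bool.false_eq_true, if_false]
        rw [map_sub, eval_shift, sub_ne_zero]
        exact hbne)
  have h1 := hcne true (Finset.mem_univ _)
  have h2 := hcne false (Finset.mem_univ _)
  simp only [if_true, Bool.false_eq_true, if_false] at h1 h2
  rw [eval_bind] at h1
  rw [map_sub, eval_shift, sub_ne_zero] at h2
  have hi : i ∈ (A m).vars := mem_vars_of_eval_ne h2
  have hα : (lineA i c (A m)).eval t ≠ (lineA i c (A m)).eval 0 := by
    rw [eval_lineA, eval_lineA]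
    simpa using h2
  have hψ : lineU m (fun j => eval c (A j)) Ψ ≠ 0 := by
    intro h0
    apply h1
    rw [← coeff_lineU, h0, Polynomial.coeff_zero]
  obtain ⟨x, hx⟩ := exists_ne_zero _ _ hψ hα
  refine ⟨c + Pi.single i x, Im_single hc i x, ?_⟩
  rw [children_shift hdisj hi]
  rw [eval_lineU, eval_lineA] at hx
  exact hx

/-- arity version -/
theorem hit_arity {A : Fin M → MvPolynomial (Fin n) F}
    (hdisj : Pairwise fun j j' => Disjoint (A j).vars (A j').vars) (k' : ℕ) :
    ∀ (r : ℕ) (Ψ : MvPolynomial (Fin M) F), Ψ ≠ 0 → Ψ.vars.card ≤ r →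
      (∀ m ∈ Ψ.vars, E k' (A m)) →
      ∃ a ∈ Im F n (k' + r), eval (fun j => eval a (A j)) Ψ ≠ 0 := by
  intro r
  induction r with
  | zero =>
    intro Ψ h0 hcard _
    refine ⟨0, zero_mem_Im _ _, ?_⟩
    have hv : Ψ.vars = ∅ := Finset.card_eq_zero.mp (Nat.le_zero.mp hcard)
    obtain ⟨c, rfl⟩ : ∃ c, Ψ = C c := by
      rw [vars_eq_empty_iff_eq_C] at hv
      exact ⟨_, hv⟩
    simp only [eval_C]
    rintro rfl
    exact h0 (map_zero C)
  | succ r ih =>
    intro Ψ h0 hcard hE
    by_cases hv : Ψ.vars = ∅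
    · obtain ⟨a, ha, hne⟩ := ih Ψ h0 (by simp [hv]) hE
      exact ⟨a, Im_mono (by omega) ha, hne⟩
    · obtain ⟨m, hm⟩ := Finset.nonempty_iff_ne_empty.mpr hv
      obtain ⟨d, hd⟩ := support_nonempty.mpr h0
      have hsub := vars_cf m (d m) Ψ
      have hc : (cf m (d m) Ψ).vars.card ≤ r := by
        have := Finset.card_le_card hsub
        rw [Finset.card_erase_of_mem hm] at this
        omega
      have := ih (cf m (d m) Ψ) (cf_ne_zero m Ψ hd) hc
        (fun l hl => hE l (Finset.mem_of_mem_erase (hsub hl)))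
      exact step hdisj Ψ m (d m) (Nat.le_add_right _ _) (hE m hm) this

/-- sparse version -/
theorem hit_sparse {A : Fin M → MvPolynomial (Fin n) F}
    (hdisj : Pairwise fun j j' => Disjoint (A j).vars (A j').vars) (k' : ℕ) :
    ∀ (r : ℕ) (Ψ : MvPolynomial (Fin M) F), Ψ ≠ 0 → Ψ.support.card < 2 ^ (r + 1) →
      (∀ m ∈ Ψ.vars, E k' (A m)) →
      ∃ a ∈ Im F n (k' + r + 1), eval (fun j => eval a (A j)) Ψ ≠ 0 := by
  intro r
  induction r with
  | zero =>
    intro Ψ h0 hcard hE
    have h1 : Ψ.support.card = 1 := by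
      have := Finset.card_pos.mpr (support_nonempty.mpr h0)
      omega
    obtain ⟨d, hd⟩ := Finset.card_eq_one.mp h1
    have hΨ : Ψ = monomial d (coeff d Ψ) := by
      conv_lhs => rw [Ψ.as_sum, hd, Finset.sum_singleton]
    have hcoeff : coeff d Ψ ≠ 0 := by
      rw [← mem_support_iff, hd]; simp
    obtain ⟨a, ha, hne⟩ := Im_irred (F := F) (n := n) (k := k' + 0 + 1) d.support A (by
      intro m hm
      have hmv : m ∈ Ψ.vars := by
        rw [mem_vars_iff_mem_support]
        exact ⟨d, by rw [hd]; simp, hm⟩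
      obtain ⟨i, t, a, ha, hne⟩ := hE m hmv
      by_cases h : eval a (A m) = 0
      · exact ⟨_, Im_single ha i t, by rwa [h] at hne⟩
      · exact ⟨a, Im_mono (by omega) ha, h⟩)
    refine ⟨a, ha, ?_⟩
    rw [hΨ, eval_monomial]
    refine mul_ne_zero hcoeff ?_
    rw [Finsupp.prod, Finset.prod_ne_zero_iff]
    intro m hm
    exact pow_ne_zero _ (hne m hm)
  | succ r ih =>
    intro Ψ h0 hcard hE
    by_cases h1 : Ψ.support.card < 2 ^ (r + 1)
    · obtain ⟨a, ha, hne⟩ := ih Ψ h0 h1 hE
      exact ⟨a, Im_mono (by omega) ha, hne⟩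
    · have h2 : 1 < Ψ.support.card := by
        have : 2 ≤ 2 ^ (r + 1) := by
          calc 2 = 2 ^ 1 := rfl
            _ ≤ 2 ^ (r + 1) := Nat.pow_le_pow_right (by norm_num) (by omega)
        omega
      obtain ⟨d, hd, d', hd', hdd⟩ := Finset.one_lt_card.mp h2
      obtain ⟨m, hm⟩ : ∃ m, d m ≠ d' m := by
        by_contra hcon
        push Not at hcon
        exact hdd (Finsupp.ext hcon)
      have hmv : m ∈ Ψ.vars := by
        rw [mem_vars_iff_mem_support]
        by_cases h : d m = 0
        · exact ⟨d', hd', by rw [Finsupp.mem_support_iff]; exact fun h' => hm (h.trans h'.symm)⟩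
        · exact ⟨d, hd, Finsupp.mem_support_iff.mpr h⟩
      have key : ∃ d'' ∈ Ψ.support, (cf m (d'' m) Ψ).support.card < 2 ^ (r + 1) := by
        by_contra hcon
        push Not at hcon
        have a1 := (hcon d hd).trans (card_cf m (d m) Ψ)
        have a2 := (hcon d' hd').trans (card_cf m (d' m) Ψ)
        have hdis : Disjoint (Ψ.support.filter fun x => x m = d m)
            (Ψ.support.filter fun x => x m = d' m) := by
          rw [Finset.disjoint_left]
          intro x hx hx'
          rw [Finset.mem_filter] at hx hx'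
          exact hm (hx.2.symm.trans hx'.2)
        have a3 : (Ψ.support.filter fun x => x m = d m).card +
            (Ψ.support.filter fun x => x m = d' m).card ≤ Ψ.support.card := by
          rw [← Finset.card_union_of_disjoint hdis]
          apply Finset.card_le_card
          apply Finset.union_subset <;> exact Finset.filter_subset _ _
        have a4 : 2 ^ (r + 1 + 1) = 2 ^ (r + 1) + 2 ^ (r + 1) := by ring
        omega
      obtain ⟨d'', hd'', hlt⟩ := key
      have hsub := vars_cf m (d'' m) Ψ
      have := ih (cf m (d'' m) Ψ) (cf_ne_zero m Ψ hd'') hlt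
        (fun l hl => hE l (Finset.mem_of_mem_erase (hsub hl)))
      have h3 := step hdisj Ψ m (d'' m) (show k' ≤ k' + r + 1 by omega) (hE m hmv) this
      exact h3

/-- The gate lemma. -/
theorem E_gate {A : Fin M → MvPolynomial (Fin n) F}
    (hdisj : Pairwise fun j j' => Disjoint (A j).vars (A j').vars)
    (Φ : MvPolynomial (Fin M) F) (j : Fin M) {e : ℕ} (he : e ≠ 0) {k : ℕ} (hE : E k (A j))
    (h : ∃ a ∈ Im F n k, eval (fun l => eval a (A l)) (cf j e Φ) ≠ 0) :
    E k (bind₁ A Φ) := by
  obtain ⟨i, t, b, hb, hbne⟩ := hE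
  obtain ⟨a, ha, hane⟩ := h
  obtain ⟨c, hc, hcne⟩ := Im_irred (F := F) (n := n) (k := k) (Finset.univ : Finset Bool)
    (fun s => if s then bind₁ A (cf j e Φ) else shift (Pi.single i t) (A j) - A j) (by
      intro s _
      cases s with
      | true =>
        refine ⟨a, ha, ?_⟩
        simp only [if_true]
        rwa [eval_bind]
      | false =>
        refine ⟨b, hb, ?_⟩
        simp only [Bool.false_eq_true, if_false]
        rw [map_sub, eval_shift, sub_ne_zero]
        exact hbne)
  have h1 := hcne true (Finset.mem_univ _)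
  have h2 := hcne false (Finset.mem_univ _)
  simp only [if_true, Bool.false_eq_true, if_false] at h1 h2
  rw [eval_bind] at h1
  rw [map_sub, eval_shift, sub_ne_zero] at h2
  have hi : i ∈ (A j).vars := mem_vars_of_eval_ne h2
  have hα : (lineA i c (A j)).eval t ≠ (lineA i c (A j)).eval 0 := by
    rw [eval_lineA, eval_lineA]
    simpa using h2
  set z : Fin M → F := fun l => eval c (A l) with hz
  -- the polynomial `y ↦ Φ(z; y) - Φ(z)` is nonzero
  have hψ : lineU j z Φ - Polynomial.C (eval z Φ) ≠ 0 := by
    intro h0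
    apply h1
    rw [← coeff_lineU, sub_eq_zero.mp h0, Polynomial.coeff_C, if_neg he]
  obtain ⟨x, hx⟩ := exists_ne_zero _ _ hψ hα
  refine ⟨i, x, c, hc, ?_⟩
  rw [eval_bind, eval_bind, children_shift hdisj hi]
  rw [Polynomial.eval_sub, Polynomial.eval_C, sub_ne_zero, eval_lineU, eval_lineA] at hx
  exact hx

end Step

end Pool.Agent.W2helper21.ROG
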