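import Pool.Agent.W2helper21.ROG.Core

/-!
# Expansions of `P (a + y L(w))`
-/

namespace Pool.Agent.W2helper21.ROG

open MvPolynomial

section Lag

variable (F : Type*) [Field F] (n : ℕ)

/-- The Lagrange polynomials on the nodes `0, …, n - 1`. -/
noncomputable def lagP (i : Fin n) : Polynomial F :=
  ∏ j ∈ Finset.univ.erase i, (Polynomial.X - Polynomial.C ((j : ℕ) : F)) *
    Polynomial.C ((((i : ℕ) : F) - ((j : ℕ) : F))⁻¹)

variable {F n}

theorem eval_lagP (u : F) (i : Fin n) : (lagP F n i).eval u = lag n u i := by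
  rw [lagP, lag, Polynomial.eval_prod]
  apply Finset.prod_congr rfl
  intro j _
  rw [Polynomial.eval_mul, Polynomial.eval_sub, Polynomial.eval_X, Polynomial.eval_C,
    Polynomial.eval_C, div_eq_mul_inv]

theorem natDegree_lagP (i : Fin n) : (lagP F n i).natDegree ≤ n - 1 := by
  rw [lagP]
  refine (Polynomial.natDegree_prod_le _ _).trans ?_
  calc ∑ j ∈ Finset.univ.erase i, ((Polynomial.X - Polynomial.C ((j : ℕ) : F)) *
        Polynomial.C ((((i : ℕ) : F) - ((j : ℕ) : F))⁻¹)).natDegree
      ≤ ∑ j ∈ Finset.univ.erase i, 1 := by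
        apply Finset.sum_le_sum
        intro j _
        refine (Polynomial.natDegree_mul_C_le _ _).trans ?_
        exact (Polynomial.natDegree_X_sub_C _).le
    _ = n - 1 := by simp

theorem dvd_lagP {i j : Fin n} (h : j ≠ i) :
    (Polynomial.X - Polynomial.C ((j : ℕ) : F)) ∣ lagP F n i := by
  rw [lagP]
  refine Dvd.dvd.trans (Dvd.intro _ rfl)
    (Finset.dvd_prod_of_mem _ (Finset.mem_erase.mpr ⟨h, Finset.mem_univ j⟩))

end Lag

section Dir

variable {F : Type*} [Field F] {n : ℕ}

/-- `P (b + y ℓ)` as a polynomial in `y`. -/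
noncomputable def dir {B : Type*} [CommRing B] [Algebra F B] (b ℓ : Fin n → B)
    (P : MvPolynomial (Fin n) F) : Polynomial B :=
  aeval (fun l => Polynomial.C (b l) + Polynomial.C (ℓ l) * Polynomial.X) P

theorem map_dir {B B' : Type*} [CommRing B] [Algebra F B] [CommRing B'] [Algebra F B']
    (φ : B →ₐ[F] B') (b ℓ : Fin n → B) (P : MvPolynomial (Fin n) F) :
    (dir b ℓ P).map (φ : B →+* B') = dir (fun l => φ (b l)) (fun l => φ (ℓ l)) P := by
  have h : (dir b ℓ P).map (φ : B →+* B') = Polynomial.mapAlgHom φ (dir b ℓ P) := rfl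
  rw [h, dir, dir, MvPolynomial.comp_aeval_apply]
  congr 2
  funext l
  simp

theorem eval_dir (a v : Fin n → F) (P : MvPolynomial (Fin n) F) (y : F) :
    (dir a v P).eval y = eval (a + y • v) P := by
  have h : (dir a v P).eval y = Polynomial.aeval y (dir a v P) := by
    rw [Polynomial.coe_aeval_eq_eval]
  rw [h, dir, MvPolynomial.comp_aeval_apply]
  rw [← MvPolynomial.aeval_eq_eval]
  change _ = aeval _ P
  congr 2
  funext l
  rw [Polynomial.coe_aeval_eq_eval, Polynomial.eval_add, Polynomial.eval_mul, Polynomial.eval_C,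
    Polynomial.eval_C, Polynomial.eval_X, Pi.add_apply, Pi.smul_apply, smul_eq_mul, mul_comm]

/-- The coefficient of `y ^ i` in `P (a + y L(w))` as a polynomial in `w`. -/
noncomputable def cw (P : MvPolynomial (Fin n) F) (i : ℕ) (a : Fin n → F) : Polynomial F :=
  (dir (fun l => Polynomial.C (a l)) (lagP F n) P).coeff i

theorem eval_cw (P : MvPolynomial (Fin n) F) (i : ℕ) (a : Fin n → F) (w : F) :
    (cw P i a).eval w = (dir a (lag n w) P).coeff i := by
  have h := map_dir (Polynomial.aeval w : Polynomial F →ₐ[F] F)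
    (fun l => Polynomial.C (a l)) (lagP F n) P
  have h2 := congrArg (fun q => q.coeff i) h
  simp only [Polynomial.coeff_map] at h2
  rw [cw]
  have h3 : (Polynomial.aeval w : Polynomial F →ₐ[F] F)
      ((dir (fun l => Polynomial.C (a l)) (lagP F n) P).coeff i) =
      ((dir (fun l => Polynomial.C (a l)) (lagP F n) P).coeff i).eval w := by
    rw [Polynomial.coe_aeval_eq_eval]
  rw [← h3]
  refine h2.trans ?_
  congr 2
  · funext l
    simp
  · funext l
    rw [Polynomial.coe_aeval_eq_eval]
    exact eval_lagP w l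

/-- The universal version of `cw`. -/
noncomputable def uw (P : MvPolynomial (Fin n) F) (i : ℕ) :
    Polynomial (MvPolynomial (Fin n) F) :=
  (dir (fun l => Polynomial.C (X l)) (fun l => (lagP F n l).map C) P).coeff i

theorem map_uw (P : MvPolynomial (Fin n) F) (i : ℕ) (a : Fin n → F) :
    (uw P i).map (eval a) = cw P i a := by
  have h := map_dir (Polynomial.mapAlgHom (MvPolynomial.aeval a : MvPolynomial (Fin n) F →ₐ[F] F))
    (fun l => Polynomial.C (X l)) (fun l => (lagP F n l).map C) P
  have h2 := congrArg (fun q => q.coeff i) h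
  simp only [Polynomial.coeff_map] at h2
  have hev : ((MvPolynomial.aeval a : MvPolynomial (Fin n) F →ₐ[F] F) :
      MvPolynomial (Fin n) F →+* F) = eval a := by
    ext <;> simp
  rw [uw, cw]
  have h3 : ((dir (fun l => Polynomial.C (X l)) (fun l => (lagP F n l).map C) P).coeff i).map
      (eval a) = (Polynomial.mapAlgHom (MvPolynomial.aeval a : MvPolynomial (Fin n) F →ₐ[F] F))
      ((dir (fun l => Polynomial.C (X l)) (fun l => (lagP F n l).map C) P).coeff i) := by
    rw [← hev]; rfl
  rw [h3]
  refine h2.trans ?_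
  congr 2
  · funext l
    simp
  · funext l
    change ((lagP F n l).map C).map ((MvPolynomial.aeval a : MvPolynomial (Fin n) F →ₐ[F] F) :
      MvPolynomial (Fin n) F →+* F) = _
    rw [hev, Polynomial.map_map]
    have : (eval a).comp (C : F →+* MvPolynomial (Fin n) F) = RingHom.id F := by
      ext x; simp
    rw [this, Polynomial.map_id]

theorem natDegree_coeff_dir {D : ℕ} (b ℓ : Fin n → Polynomial F)
    (hb : ∀ l, (b l).natDegree = 0) (hl : ∀ l, (ℓ l).natDegree ≤ D)
    (P : MvPolynomial (Fin n) F) : ∀ i, ((dir b ℓ P).coeff i).natDegree ≤ i * D := by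
  induction P using MvPolynomial.induction_on with
  | C c =>
    intro i
    have : (dir b ℓ (C c : MvPolynomial (Fin n) F)) = Polynomial.C (Polynomial.C c) := by
      rw [dir, MvPolynomial.aeval_C]; rfl
    rw [this, Polynomial.coeff_C]
    split_ifs <;> simp
  | add p q hp hq =>
    intro i
    have : dir b ℓ (p + q) = dir b ℓ p + dir b ℓ q := map_add _ _ _
    rw [this, Polynomial.coeff_add]
    exact (Polynomial.natDegree_add_le _ _).trans (max_le (hp i) (hq i))
  | mul_X p l hp =>
    intro i
    have : dir b ℓ (p * X l) =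
        dir b ℓ p * (Polynomial.C (b l) + Polynomial.C (ℓ l) * Polynomial.X) := by
      rw [dir, map_mul, aeval_X]; rfl
    rw [this, mul_add, Polynomial.coeff_add, Polynomial.coeff_mul_C]
    have h2 : dir b ℓ p * (Polynomial.C (ℓ l) * Polynomial.X) =
        (dir b ℓ p * Polynomial.C (ℓ l)) * Polynomial.X := by ring
    rw [h2]
    refine (Polynomial.natDegree_add_le _ _).trans (max_le ?_ ?_)
    · refine Polynomial.natDegree_mul_le.trans ?_
      rw [hb l, add_zero]
      exact hp i
    · cases i with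
      | zero => simp
      | succ i =>
        rw [Polynomial.coeff_mul_X, Polynomial.coeff_mul_C]
        refine Polynomial.natDegree_mul_le.trans ?_
        calc _ ≤ i * D + D := Nat.add_le_add (hp i) (hl l)
          _ = (i + 1) * D := by ring

theorem dvd_coeff_dir {B : Type*} [CommRing B] [Algebra F B] (q : B) (b ℓ : Fin n → B)
    (hl : ∀ l, q ∣ ℓ l) (P : MvPolynomial (Fin n) F) : ∀ i, q ^ i ∣ (dir b ℓ P).coeff i := by
  induction P using MvPolynomial.induction_on with
  | C c =>
    intro i
    have : (dir b ℓ (C c : MvPolynomial (Fin n) F)) = Polynomial.C (algebraMap F B c) := by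
      rw [dir, MvPolynomial.aeval_C]; rfl
    rw [this, Polynomial.coeff_C]
    split_ifs with h
    · rw [h]; simp
    · exact dvd_zero _
  | add p q' hp hq =>
    intro i
    have : dir b ℓ (p + q') = dir b ℓ p + dir b ℓ q' := map_add _ _ _
    rw [this, Polynomial.coeff_add]
    exact dvd_add (hp i) (hq i)
  | mul_X p l hp =>
    intro i
    have : dir b ℓ (p * X l) =
        dir b ℓ p * (Polynomial.C (b l) + Polynomial.C (ℓ l) * Polynomial.X) := by
      rw [dir, map_mul, aeval_X]; rfl
    rw [this, mul_add, Polynomial.coeff_add, Polynomial.coeff_mul_C]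
    have h2 : dir b ℓ p * (Polynomial.C (ℓ l) * Polynomial.X) =
        (dir b ℓ p * Polynomial.C (ℓ l)) * Polynomial.X := by ring
    rw [h2]
    refine dvd_add (Dvd.dvd.mul_right (hp i) _) ?_
    cases i with
    | zero => simp
    | succ i =>
      rw [Polynomial.coeff_mul_X, Polynomial.coeff_mul_C, pow_succ]
      exact mul_dvd_mul (hp i) (hl l)

theorem natDegree_cw (P : MvPolynomial (Fin n) F) (i : ℕ) (a : Fin n → F) :
    (cw P i a).natDegree ≤ i * (n - 1) :=
  natDegree_coeff_dir _ _ (fun l => Polynomial.natDegree_C _) natDegree_lagP P i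

theorem dir_congr_vars {B : Type*} [CommRing B] [Algebra F B] {b b' ℓ ℓ' : Fin n → B}
    {P : MvPolynomial (Fin n) F} (hb : ∀ i ∈ P.vars, b i = b' i) (hl : ∀ i ∈ P.vars, ℓ i = ℓ' i) :
    dir b ℓ P = dir b' ℓ' P := by
  unfold dir
  change (eval₂Hom _ _) P = (eval₂Hom _ _) P
  apply eval₂Hom_congr' rfl _ rfl
  intro i hi _
  rw [hb i hi, hl i hi]

theorem cw_congr_vars {P : MvPolynomial (Fin n) F} {i : ℕ} {a b : Fin n → F}
    (h : ∀ i ∈ P.vars, a i = b i) : cw P i a = cw P i b := by
  unfold cw
  rw [dir_congr_vars (b' := fun l => Polynomial.C (b l)) (ℓ' := lagP F n) (P := P)]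
  · intro i hi; rw [h i hi]
  · intro i _; rfl

theorem dvd_cw {P : MvPolynomial (Fin n) F} {j : Fin n} (hj : j ∉ P.vars) (i : ℕ)
    (a : Fin n → F) : (Polynomial.X - Polynomial.C ((j : ℕ) : F)) ^ i ∣ cw P i a := by
  unfold cw
  rw [dir_congr_vars (b' := fun l => Polynomial.C (a l))
    (ℓ' := fun l => if l = j then 0 else lagP F n l) (P := P) (fun _ _ => rfl)]
  · apply dvd_coeff_dir
    intro l
    by_cases h : l = j
    · simp [h]
    · rw [if_neg h]; exact dvd_lagP (fun h' => h h'.symm)
  · intro l hl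
    have hne : l ≠ j := fun h => hj (h ▸ hl)
    rw [if_neg hne]

/-- The Taylor coefficients of `cw` at `c`, as polynomials in `a`. -/
noncomputable def tc (P : MvPolynomial (Fin n) F) (i : ℕ) (c : F) (ρ : ℕ) :
    MvPolynomial (Fin n) F :=
  (Polynomial.taylor (C c) (uw P i)).coeff ρ

theorem eval_tc (P : MvPolynomial (Fin n) F) (i : ℕ) (c : F) (ρ : ℕ) (a : Fin n → F) :
    eval a (tc P i c ρ) = (Polynomial.taylor c (cw P i a)).coeff ρ := by
  rw [tc, ← map_uw, ← Polynomial.coeff_map, Polynomial.map_taylor, eval_C]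

theorem cw_zero (P : MvPolynomial (Fin n) F) (a : Fin n → F) [Infinite F] :
    cw P 0 a = Polynomial.C (eval a P) := by
  apply Polynomial.funext
  intro w
  rw [eval_cw, Polynomial.eval_C, Polynomial.coeff_zero_eq_eval_zero, eval_dir]
  simp

end Dir

end Pool.Agent.W2helper21.ROG
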