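import Pool.Agent.W2helper21.ROG.Sparse

/-!
# Polynomials whose top form does not vanish on the image of the generator
-/

namespace Pool.Agent.W2helper21.ROG

open MvPolynomial

variable {F : Type*} [Field F] [CharZero F] {n : ℕ}

/-- The top form of `P` has positive degree and does not vanish on the image of the generator
with `k` pairs of seeds. -/
def Good (k : ℕ) (P : MvPolynomial (Fin n) F) : Prop :=
  ∃ (N : ℕ) (T : MvPolynomial (Fin n) F), N ≠ 0 ∧ NZ k T ∧
    ∀ a, (ray P a).natDegree ≤ N ∧ (ray P a).coeff N = eval a T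

omit [CharZero F] in
theorem good_mono {k l : ℕ} (hkl : k ≤ l) {P : MvPolynomial (Fin n) F} (h : Good k P) :
    Good l P := by
  obtain ⟨N, T, h1, h2, h3⟩ := h
  exact ⟨N, T, h1, NZ_mono hkl h2, h3⟩

theorem top_hom {N : ℕ} {P T : MvPolynomial (Fin n) F}
    (h : ∀ a, (ray P a).natDegree ≤ N ∧ (ray P a).coeff N = eval a T) : Hom N T := by
  intro c _ a
  rw [← (h (c • a)).2, ← (h a).2]
  have h1 : ray P (c • a) = (ray P a).comp (Polynomial.C c * Polynomial.X) := by
    apply Polynomial.funext
    intro y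
    rw [eval_ray, Polynomial.eval_comp, eval_ray]
    simp only [Polynomial.eval_mul, Polynomial.eval_C, Polynomial.eval_X]
    rw [smul_smul, mul_comm]
  rw [h1, Polynomial.comp_C_mul_X_coeff, mul_comm]

theorem top_vars {N : ℕ} {P T : MvPolynomial (Fin n) F}
    (h : ∀ a, (ray P a).natDegree ≤ N ∧ (ray P a).coeff N = eval a T) : T.vars ⊆ P.vars := by
  apply vars_subset_of_dep
  intro a b hab
  rw [← (h a).2, ← (h b).2]
  have : ray P a = ray P b := dir_congr_vars (fun _ _ => rfl) hab
  rw [this]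

omit [CharZero F] in
theorem Im_smul {k : ℕ} {a : Fin n → F} (ha : a ∈ Im F n k) (y : F) : y • a ∈ Im F n k := by
  obtain ⟨u, s, rfl⟩ := ha
  refine ⟨u, y • s, ?_⟩
  funext i
  simp [gen, Finset.mul_sum, mul_assoc]

theorem good_hit {k : ℕ} {P : MvPolynomial (Fin n) F} (h : Good k P) :
    ∃ a ∈ Im F n k, eval a P ≠ 0 := by
  obtain ⟨N, T, _, ⟨a, ha, hne⟩, h3⟩ := h
  by_contra hcon
  push Not at hcon
  apply hne
  rw [← (h3 a).2]
  have : ray P a = 0 := by
    apply Polynomial.funext
    intro y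
    rw [eval_ray, hcon _ (Im_smul ha y), Polynomial.eval_zero]
  rw [this, Polynomial.coeff_zero]

theorem ray_bind {M : ℕ} (A : Fin M → MvPolynomial (Fin n) F) (Φ : MvPolynomial (Fin M) F)
    (a : Fin n → F) : ray (bind₁ A Φ) a = aeval (fun m => ray (A m) a) Φ := by
  unfold ray dir
  rw [aeval_bind₁]

/-- leaves -/
theorem good_leaf {k : ℕ} (P : MvPolynomial (Fin n) F) (hP : P.vars.Nonempty)
    (hk : P.support.card < 2 ^ k) : Good k P := by
  classical
  have hP0 : P ≠ 0 := by
    rintro rfl
    simp at hP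
  obtain ⟨d, hd, hmax⟩ := Finset.exists_max_image P.support (wt fun _ => 1)
    (support_nonempty.mpr hP0)
  set N := wt (fun _ => 1) d with hN
  have hN0 : N ≠ 0 := by
    obtain ⟨i, hi⟩ := hP
    rw [mem_vars_iff_mem_support] at hi
    obtain ⟨e, he, hie⟩ := hi
    have h1 := hmax e he
    have h2 : e i ≤ wt (fun _ => 1) e := by
      rw [wt]
      simp only [one_mul]
      exact Finset.single_le_sum (fun _ _ => Nat.zero_le _) (Finset.mem_univ i)
    have h3 := Finsupp.mem_support_iff.mp hie
    omega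
  refine ⟨N, part (fun _ => 1) N P, hN0, ?_, ?_⟩
  · have hne : part (fun _ => 1) N P ≠ 0 := by
      intro h
      have : d ∈ (part (fun _ => 1) N P).support := mem_support_part.mpr ⟨hd, rfl⟩
      rw [h] at this
      simp at this
    obtain ⟨k, rfl⟩ : ∃ k', k = k' + 1 := by
      refine ⟨k - 1, ?_⟩
      have := Finset.card_pos.mpr (support_nonempty.mpr hP0)
      by_contra h
      have h0 : k = 0 := by omega
      rw [h0, pow_zero] at hk
      omega
    have hcard : (part (fun _ => 1) N P).support.card < 2 ^ (k + 1) :=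
      lt_of_le_of_lt (Finset.card_le_card fun α hα => (mem_support_part.mp hα).1) hk
    obtain ⟨a, ha, hane⟩ := hit_sparse (A := fun i => (X i : MvPolynomial (Fin n) F)) (by
      intro i j hij
      simp only [vars_X]
      rw [Finset.disjoint_singleton]
      exact hij) 0 k (part (fun _ => 1) N P) hne hcard (by
      intro m _
      refine ⟨m, 1, 0, zero_mem_Im _ _, ?_⟩
      simp)
    refine ⟨a, by simpa using ha, ?_⟩
    simpa using hane
  · intro a
    have h1 := coeff_lead (w := fun _ => 1) (N := N) (Φ := P)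
      (p := fun l => Polynomial.C ((0 : Fin n → F) l) + Polynomial.C (a l) * Polynomial.X) (by
        intro m _
        refine (Polynomial.natDegree_add_le _ _).trans (max_le ?_ ?_)
        · simp
        · exact (Polynomial.natDegree_C_mul_le _ _).trans Polynomial.natDegree_X_le) hmax
    refine ⟨h1.1, ?_⟩
    rw [ray, dir, h1.2]
    congr 2
    funext m
    simp

/-- gates -/
theorem good_gate {M : ℕ} (Φ : MvPolynomial (Fin M) F) (A : Fin M → MvPolynomial (Fin n) F)
    (κ : Fin M → ℕ) (hv : Φ.vars.Nonempty)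
    (hdisj : Pairwise fun j j' => Disjoint (A j).vars (A j').vars)
    (hgood : ∀ m ∈ Φ.vars, Good (κ m) (A m)) (k : ℕ)
    (hclose : ∀ (w : Fin M → ℕ) (N : ℕ) (T : Fin M → MvPolynomial (Fin n) F),
      part w N Φ ≠ 0 → N ≠ 0 → (Pairwise fun j j' => Disjoint (T j).vars (T j').vars) →
      (∀ m ∈ Φ.vars, Hom (w m) (T m) ∧ w m ≠ 0 ∧ NZ (κ m) (T m)) →
      NZ k (bind₁ T (part w N Φ))) : Good k (bind₁ A Φ) := by
  classical
  have hall : ∀ m, ∃ (N : ℕ) (T : MvPolynomial (Fin n) F), T.vars ⊆ (A m).vars ∧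
      (m ∈ Φ.vars → N ≠ 0 ∧ NZ (κ m) T ∧ Hom N T ∧
        ∀ a, (ray (A m) a).natDegree ≤ N ∧ (ray (A m) a).coeff N = eval a T) := by
    intro m
    by_cases hm : m ∈ Φ.vars
    · obtain ⟨N, T, h1, h2, h3⟩ := hgood m hm
      exact ⟨N, T, top_vars h3, fun _ => ⟨h1, h2, top_hom h3, h3⟩⟩
    · exact ⟨0, 0, by simp, fun h => (hm h).elim⟩
  choose w T hTv hT using hall
  have hΦ0 : Φ ≠ 0 := by
    rintro rfl
    simp at hv
  obtain ⟨d, hd, hmax⟩ := Finset.exists_max_image Φ.support (wt w) (support_nonempty.mpr hΦ0)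
  set N := wt w d with hN
  have hN0 : N ≠ 0 := by
    obtain ⟨i, hi⟩ := hv
    have hwi := (hT i hi).1
    rw [mem_vars_iff_mem_support] at hi
    obtain ⟨e, he, hie⟩ := hi
    have h1 := hmax e he
    have h2 : w i * e i ≤ wt w e := by
      rw [wt]
      exact Finset.single_le_sum (f := fun m => w m * e m) (fun _ _ => Nat.zero_le _)
        (Finset.mem_univ i)
    have h3 := Finsupp.mem_support_iff.mp hie
    have h4 := Nat.mul_ne_zero hwi h3
    omega
  have hne : part w N Φ ≠ 0 := by
    intro h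
    have : d ∈ (part w N Φ).support := mem_support_part.mpr ⟨hd, rfl⟩
    rw [h] at this
    simp at this
  refine ⟨N, bind₁ T (part w N Φ), hN0, hclose w N T hne hN0 ?_ ?_, ?_⟩
  · intro j j' hjj
    exact Finset.disjoint_of_subset_left (hTv j)
      (Finset.disjoint_of_subset_right (hTv j') (hdisj hjj))
  · intro m hm
    exact ⟨(hT m hm).2.2.1, (hT m hm).1, (hT m hm).2.1⟩
  · intro a
    rw [ray_bind]
    have h1 := coeff_lead (w := w) (N := N) (Φ := Φ) (p := fun m => ray (A m) a)
      (fun m hm => ((hT m hm).2.2.2 a).1) hmax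
    refine ⟨h1.1, ?_⟩
    rw [h1.2, eval_bind]
    apply eval_congr_vars
    intro m hm
    exact ((hT m (vars_part hm)).2.2.2 a).2

/-- linear combinations -/
theorem claim_sum {M k N : ℕ} (hk : k ≠ 0) (hN : N ≠ 0) (T : Fin M → MvPolynomial (Fin n) F)
    (hdisj : Pairwise fun j j' => Disjoint (T j).vars (T j').vars) (c : Fin M → F)
    (S : Finset (Fin M)) (hS : S.Nonempty) (hc : ∀ m ∈ S, c m ≠ 0)
    (hT : ∀ m ∈ S, Hom N (T m) ∧ NZ k (T m)) :
    NZ k (∑ m ∈ S, C (c m) * T m) ∧ Hom N (∑ m ∈ S, C (c m) * T m) ∧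
      (∑ m ∈ S, C (c m) * T m).vars ⊆ S.biUnion fun m => (T m).vars := by
  classical
  have hvm : ∀ m, (C (c m) * T m).vars ⊆ (T m).vars := by
    intro m
    refine (vars_mul _ _).trans ?_
    rw [vars_C, Finset.empty_union]
  induction hS using Finset.Nonempty.cons_induction with
  | singleton m =>
    rw [Finset.sum_singleton, Finset.singleton_biUnion]
    obtain ⟨h1, a, ha, hne⟩ := hT m (Finset.mem_singleton_self m)
    refine ⟨⟨a, ha, ?_⟩, ?_, hvm m⟩
    · rw [map_mul, eval_C]
      exact mul_ne_zero (hc m (Finset.mem_singleton_self m)) hne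
    · intro x hx a
      rw [map_mul, map_mul, eval_C, eval_C, h1 x hx a]
      ring
  | cons m S hmS hS ih =>
    rw [Finset.sum_cons]
    obtain ⟨ih1, ih2, ih3⟩ := ih (fun l hl => hc l (Finset.mem_cons_of_mem hl))
      (fun l hl => hT l (Finset.mem_cons_of_mem hl))
    obtain ⟨h1, a, ha, hne⟩ := hT m (Finset.mem_cons_self m S)
    have h3 : Hom N (C (c m) * T m) := by
      intro x hx a
      rw [map_mul, map_mul, eval_C, eval_C, h1 x hx a]
      ring
    refine ⟨?_, ?_, ?_⟩
    · apply claim_add hk hN _ h3 ih2 _ ih1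
      · refine Finset.disjoint_of_subset_left (hvm m) (Finset.disjoint_of_subset_right ih3 ?_)
        rw [Finset.disjoint_biUnion_right]
        intro l hl
        apply hdisj
        rintro rfl
        exact hmS hl
      · refine ⟨a, ha, ?_⟩
        rw [map_mul, eval_C]
        exact mul_ne_zero (hc m (Finset.mem_cons_self m S)) hne
    · intro x hx a
      rw [map_add, map_add, h3 x hx a, ih2 x hx a]
      ring
    · refine (vars_add_subset _ _).trans ?_
      rw [Finset.cons_eq_insert, Finset.biUnion_insert]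
      exact Finset.union_subset_union (hvm m) ih3

/-- affine gates -/
theorem close_affine {M k : ℕ} (hk : k ≠ 0) (Φ : MvPolynomial (Fin M) F)
    (hΦ : Φ.totalDegree ≤ 1) (w : Fin M → ℕ) (N : ℕ) (T : Fin M → MvPolynomial (Fin n) F)
    (hne : part w N Φ ≠ 0) (hN : N ≠ 0)
    (hdisj : Pairwise fun j j' => Disjoint (T j).vars (T j').vars)
    (hT : ∀ m ∈ Φ.vars, Hom (w m) (T m) ∧ w m ≠ 0 ∧ NZ k (T m)) :
    NZ k (bind₁ T (part w N Φ)) := by
  classical
  have hmono : ∀ α ∈ (part w N Φ).support, ∃ m, α = Finsupp.single m 1 ∧ w m = N ∧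
      m ∈ Φ.vars := by
    intro α hα
    rw [mem_support_part] at hα
    have h1 : (α.sum fun _ e => e) ≤ 1 := (le_totalDegree hα.1).trans hΦ
    rw [Finsupp.sum_fintype _ _ (by intro i; rfl)] at h1
    obtain ⟨m, hm⟩ : ∃ m, α m ≠ 0 := by
      by_contra hcon
      push Not at hcon
      apply hN
      rw [← hα.2, wt]
      exact Finset.sum_eq_zero fun m _ => by rw [hcon m, mul_zero]
    have h2 : α m ≤ ∑ i, α i :=
      Finset.single_le_sum (f := fun i => α i) (fun _ _ => Nat.zero_le _) (Finset.mem_univ m)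
    have h3 : ∀ l, l ≠ m → α l = 0 := by
      intro l hl
      have h4 : α l + α m ≤ ∑ i, α i := by
        rw [← Finset.sum_pair hl]
        exact Finset.sum_le_sum_of_subset (Finset.subset_univ _)
      omega
    have h5 : α = Finsupp.single m 1 := by
      ext l
      by_cases hl : l = m
      · subst hl; simp; omega
      · rw [h3 l hl, Finsupp.single_eq_of_ne hl]
    refine ⟨m, h5, ?_, ?_⟩
    · rw [← hα.2, wt, Finset.sum_eq_single m]
      · have : α m = 1 := by omega
        rw [this, mul_one]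
      · intro l _ hl
        rw [h3 l hl, mul_zero]
      · intro h; exact (h (Finset.mem_univ _)).elim
    · rw [mem_vars_iff_mem_support]
      exact ⟨α, hα.1, Finsupp.mem_support_iff.mpr hm⟩
  let S : Finset (Fin M) := Finset.univ.filter fun m =>
    Finsupp.single m 1 ∈ (part w N Φ).support
  have himg : (part w N Φ).support = S.image fun m => Finsupp.single m 1 := by
    ext α
    rw [Finset.mem_image]
    constructor
    · intro hα
      obtain ⟨m, rfl, _⟩ := hmono α hα
      exact ⟨m, Finset.mem_filter.mpr ⟨Finset.mem_univ _, hα⟩, rfl⟩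
    · rintro ⟨m, hm, rfl⟩
      exact (Finset.mem_filter.mp hm).2
  have hSne : S.Nonempty := by
    obtain ⟨α, hα⟩ := support_nonempty.mpr hne
    obtain ⟨m, rfl, _⟩ := hmono α hα
    exact ⟨m, Finset.mem_filter.mpr ⟨Finset.mem_univ _, hα⟩⟩
  have hSw : ∀ m ∈ S, w m = N ∧ m ∈ Φ.vars := by
    intro m hm
    obtain ⟨l, hl, h1, h2⟩ := hmono _ (Finset.mem_filter.mp hm).2
    have : m = l := by
      have := DFunLike.congr_fun hl m
      by_contra hml
      rw [Finsupp.single_eq_same, Finsupp.single_eq_of_ne hml] at this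
      exact one_ne_zero this
    rw [this]
    exact ⟨h1, h2⟩
  have hsum : bind₁ T (part w N Φ) =
      ∑ m ∈ S, C (coeff (Finsupp.single m 1) (part w N Φ)) * T m := by
    conv_lhs => rw [(part w N Φ).as_sum, himg]
    rw [Finset.sum_image, map_sum]
    · apply Finset.sum_congr rfl
      intro m _
      rw [bind₁_monomial]
      congr 1
      rw [Finsupp.support_single_ne_zero _ one_ne_zero, Finset.prod_singleton,
        Finsupp.single_eq_same, pow_one]
    · intro m _ l _ h
      have := DFunLike.congr_fun h m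
      by_contra hml
      rw [Finsupp.single_eq_same, Finsupp.single_eq_of_ne hml] at this
      exact one_ne_zero this
  rw [hsum]
  refine (claim_sum (N := N) hk hN T hdisj _ S hSne ?_ ?_).1
  · intro m hm
    exact mem_support_iff.mp (Finset.mem_filter.mp hm).2
  · intro m hm
    obtain ⟨h1, h2⟩ := hSw m hm
    obtain ⟨h3, h4, h5⟩ := hT m h2
    rw [h1] at h3
    exact ⟨h3, h5⟩

/-- gates whose Newton polytope has dimension at most `k` or which have at most `k + 1` variables -/
theorem close_small {M k : ℕ} (hk : k ≠ 0) (Φ : MvPolynomial (Fin M) F)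
    (hΦ : Φ.totalDegree ≤ 1 ∨ Φ.vars.card ≤ k + 1 ∨ Module.finrank ℚ (nspace Φ) ≤ k)
    (w : Fin M → ℕ) (N : ℕ) (T : Fin M → MvPolynomial (Fin n) F)
    (hne : part w N Φ ≠ 0) (hN : N ≠ 0)
    (hdisj : Pairwise fun j j' => Disjoint (T j).vars (T j').vars)
    (hT : ∀ m ∈ Φ.vars, Hom (w m) (T m) ∧ w m ≠ 0 ∧ NZ k (T m)) :
    NZ k (bind₁ T (part w N Φ)) := by
  classical
  rcases hΦ with hΦ | hΦ | hΦ
  · exact close_affine hk Φ hΦ w N T hne hN hdisj hT
  · refine main_claim k (part w N Φ) T w hne hdisj (fun m hm => (hT m (vars_part hm)).1)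
      (fun _ m hm => (hT m (vars_part hm)).2.1) (fun m hm => (hT m (vars_part hm)).2.2) ?_
    have hvne : (part w N Φ).vars.Nonempty := by
      obtain ⟨α, hα⟩ := support_nonempty.mpr hne
      have hα' := mem_support_part.mp hα
      obtain ⟨m, hm⟩ : ∃ m, α m ≠ 0 := by
        by_contra hcon
        push Not at hcon
        apply hN
        rw [← hα'.2, wt]
        exact Finset.sum_eq_zero fun m _ => by rw [hcon m, mul_zero]
      exact ⟨m, (mem_vars_iff_mem_support _).mpr ⟨α, hα, Finsupp.mem_support_iff.mpr hm⟩⟩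
    have h1 := finrank_lt_vars (Ψ := part w N Φ) (w := w) (N := N)
      (fun m hm => (hT m (vars_part hm)).2.1) (fun α hα => (mem_support_part.mp hα).2) hvne
    have h2 := Finset.card_le_card (vars_part (o := w) (N := N) (Φ := Φ))
    omega
  · refine main_claim k (part w N Φ) T w hne hdisj (fun m hm => (hT m (vars_part hm)).1)
      (fun _ m hm => (hT m (vars_part hm)).2.1) (fun m hm => (hT m (vars_part hm)).2.2) ?_
    refine le_trans ?_ hΦ
    exact Submodule.finrank_mono ((nspace_part w N Φ).trans inf_le_left)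

end Pool.Agent.W2helper21.ROG
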