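import Pool.Agent.W2helper21.ROG.RO

/-!
# From the generator to an explicit hitting set
-/

namespace Pool.Agent.W2helper21.ROG

open MvPolynomial

variable {F : Type*} [Field F] [CharZero F] {n : ℕ}

theorem exists_grid {q : Polynomial F} {D : ℕ} (hq : q.natDegree ≤ D) {x : F}
    (hx : q.eval x ≠ 0) : ∃ j : Fin (D + 1), q.eval (((j : ℕ) : F)) ≠ 0 := by
  by_contra hcon
  push Not at hcon
  have : q = 0 := by
    apply Polynomial.eq_zero_of_natDegree_lt_card_of_eval_eq_zero q
      (f := fun j : Fin (D + 1) => ((j : ℕ) : F))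
    · intro i j hij
      have h : ((i : ℕ) : F) = ((j : ℕ) : F) := hij
      rw [Nat.cast_inj] at h
      exact Fin.ext h
    · exact hcon
    · rw [Fintype.card_fin]; omega
  rw [this] at hx
  simp at hx

/-- The point of the generator with the seeds `s`. -/
noncomputable def pt (F : Type*) [Field F] (n : ℕ) {K A B : ℕ} (s : Fin K → Fin A × Fin B) :
    Fin n → F :=
  gen n (fun l => (((s l).1 : ℕ) : F)) (fun l => (((s l).2 : ℕ) : F))

theorem grid (P : MvPolynomial (Fin n) F) {d : ℕ} (hd : P.totalDegree ≤ d) : ∀ (K : ℕ)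
    (v : Fin n → F), (∃ a ∈ Im F n K, eval (v + a) P ≠ 0) →
    ∃ s : Fin K → Fin ((n - 1) * d + 1) × Fin (d + 1), eval (v + pt F n s) P ≠ 0 := by
  intro K
  induction K with
  | zero =>
    rintro v ⟨a, ⟨u, y, rfl⟩, hne⟩
    refine ⟨Fin.elim0, ?_⟩
    have h1 : (gen n u y : Fin n → F) = 0 := by
      funext i; simp [gen]
    have h2 : pt F n (Fin.elim0 : Fin 0 → Fin ((n - 1) * d + 1) × Fin (d + 1)) = 0 := by
      funext i; simp [pt, gen]
    rw [h2]
    rwa [h1] at hne
  | succ K ih =>
    rintro v ⟨a, ha, hne⟩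
    obtain ⟨a', ha', u, y, rfl⟩ := Im_succ ha
    -- choose `y`
    obtain ⟨y₀, hy₀⟩ : ∃ y₀ : Fin (d + 1), eval (v + a' + ((y₀ : ℕ) : F) • lag n u) P ≠ 0 := by
      have h1 : (dir (v + a') (lag n u) P).natDegree ≤ d := by
        have := MvPolynomial.aeval_natDegree_le (n := 1) P hd (fun l => Polynomial.C ((v + a') l) +
          Polynomial.C (lag n u l) * Polynomial.X) (by
            intro l
            refine (Polynomial.natDegree_add_le _ _).trans (max_le ?_ ?_)
            · simp
            · exact (Polynomial.natDegree_C_mul_le _ _).trans Polynomial.natDegree_X_le)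
        rwa [mul_one] at this
      have h2 : (dir (v + a') (lag n u) P).eval y ≠ 0 := by
        rw [eval_dir, add_assoc]; exact hne
      obtain ⟨j, hj⟩ := exists_grid h1 h2
      exact ⟨j, by rw [← eval_dir]; exact hj⟩
    -- choose `u`
    obtain ⟨u₀, hu₀⟩ : ∃ u₀ : Fin ((n - 1) * d + 1),
        eval (v + a' + ((y₀ : ℕ) : F) • lag n ((u₀ : ℕ) : F)) P ≠ 0 := by
      let g : Fin n → Polynomial F := fun l =>
        Polynomial.C ((v + a') l) + Polynomial.C ((y₀ : ℕ) : F) * lagP F n l
      have h1 : (aeval g P : Polynomial F).natDegree ≤ (n - 1) * d := by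
        have := MvPolynomial.aeval_natDegree_le (n := n - 1) P hd g (by
            intro l
            refine (Polynomial.natDegree_add_le _ _).trans (max_le ?_ ?_)
            · simp
            · exact (Polynomial.natDegree_C_mul_le _ _).trans (natDegree_lagP l))
        rwa [mul_comm] at this
      have h2 : ∀ x : F, (aeval g P : Polynomial F).eval x =
          eval (v + a' + ((y₀ : ℕ) : F) • lag n x) P := by
        intro x
        have h3 : (aeval g P : Polynomial F).eval x =
            Polynomial.aeval x (aeval g P : Polynomial F) := by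
          rw [Polynomial.coe_aeval_eq_eval]
        rw [h3, MvPolynomial.comp_aeval_apply, ← MvPolynomial.aeval_eq_eval]
        change aeval _ P = aeval _ P
        congr 2
        funext l
        rw [Polynomial.coe_aeval_eq_eval]
        simp only [g, Polynomial.eval_add, Polynomial.eval_mul, Polynomial.eval_C, eval_lagP,
          Pi.add_apply, Pi.smul_apply, smul_eq_mul]
      obtain ⟨j, hj⟩ := exists_grid h1 (x := u) (by rw [h2]; exact hy₀)
      exact ⟨j, by rw [← h2]; exact hj⟩
    obtain ⟨s, hs⟩ := ih (v + ((y₀ : ℕ) : F) • lag n ((u₀ : ℕ) : F)) ⟨a', ha', by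
      rw [add_right_comm]; exact hu₀⟩
    refine ⟨Fin.cons (u₀, y₀) s, ?_⟩
    have h1 : pt F n (Fin.cons (u₀, y₀) s : Fin (K + 1) → _ × _) =
        ((y₀ : ℕ) : F) • lag n ((u₀ : ℕ) : F) + pt F n s := by
      funext i
      simp [pt, gen, Fin.sum_univ_succ]
    rw [h1, ← add_assoc]
    exact hs

end Pool.Agent.W2helper21.ROG
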