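import Pool.Agent.W2helper21.ROG.Dir

/-!
# Homogeneity
-/

namespace Pool.Agent.W2helper21.ROG

open MvPolynomial

variable {F : Type*} [Field F] [CharZero F] {n : ℕ}

/-- homogeneity of degree `p`, as a property of the function -/
def Hom (p : ℕ) (P : MvPolynomial (Fin n) F) : Prop :=
  ∀ c : F, c ≠ 0 → ∀ a : Fin n → F, eval (c • a) P = c ^ p * eval a P

/-- polynomial identities which hold at all nonzero points -/
theorem poly_ext_ne_zero {q r : Polynomial F} (h : ∀ x : F, x ≠ 0 → q.eval x = r.eval x) :
    q = r := by
  apply Polynomial.eq_of_infinite_eval_eq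
  have : ({0}ᶜ : Set F).Infinite := (Set.finite_singleton (0 : F)).infinite_compl
  refine this.mono ?_
  intro x hx
  exact h x hx

/-- `y ↦ P (y a)` -/
noncomputable def ray (P : MvPolynomial (Fin n) F) (a : Fin n → F) : Polynomial F :=
  dir 0 a P

omit [CharZero F] in
theorem eval_ray (P : MvPolynomial (Fin n) F) (a : Fin n → F) (y : F) :
    (ray P a).eval y = eval (y • a) P := by
  rw [ray, eval_dir, zero_add]

theorem ray_of_hom {p : ℕ} {P : MvPolynomial (Fin n) F} (h : Hom p P) (a : Fin n → F) :
    ray P a = Polynomial.C (eval a P) * Polynomial.X ^ p := by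
  apply poly_ext_ne_zero
  intro y hy
  rw [eval_ray, h y hy, Polynomial.eval_mul, Polynomial.eval_C, Polynomial.eval_pow,
    Polynomial.eval_X, mul_comm]

/-- scaling of the coefficients of `dir` -/
theorem coeff_dir_smul {p : ℕ} {P : MvPolynomial (Fin n) F} (h : Hom p P) {c : F} (hc : c ≠ 0)
    (a v : Fin n → F) (i : ℕ) :
    (dir (c • a) v P).coeff i * c ^ i = c ^ p * (dir a v P).coeff i := by
  have h1 : (dir (c • a) v P).comp (Polynomial.C c * Polynomial.X) =
      Polynomial.C (c ^ p) * dir a v P := by
    apply Polynomial.funext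
    intro y
    rw [Polynomial.eval_comp, eval_dir]
    simp only [Polynomial.eval_mul, Polynomial.eval_C, Polynomial.eval_X]
    rw [eval_dir, ← h c hc]
    congr 1
    congr 1
    rw [smul_add, smul_smul]
  have h2 := congrArg (fun q => Polynomial.coeff q i) h1
  simp only [Polynomial.comp_C_mul_X_coeff, Polynomial.coeff_C_mul] at h2
  exact h2

/-- The coefficients of `dir` are polynomials in the base point. -/
theorem exists_coeff_dir (P : MvPolynomial (Fin n) F) (v : Fin n → F) (i : ℕ) :
    ∃ q : MvPolynomial (Fin n) F, ∀ a, eval a q = (dir a v P).coeff i := by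
  refine ⟨(dir (fun l => X l) (fun l => C (v l)) P).coeff i, fun a => ?_⟩
  have h := map_dir (MvPolynomial.aeval a : MvPolynomial (Fin n) F →ₐ[F] F)
    (fun l => X l) (fun l => C (v l)) P
  have h2 := congrArg (fun q => q.coeff i) h
  simp only [Polynomial.coeff_map] at h2
  rw [← MvPolynomial.aeval_eq_eval]
  refine h2.trans ?_
  congr 2
  · funext l
    simp
  · funext l
    simp

theorem ext0 (q : MvPolynomial (Fin n) F) (a : Fin n → F) (e : ℕ) (c : F)
    (h : ∀ x : F, x ≠ 0 → x ^ e * eval (x • a) q = c) : (0 : F) ^ e * eval 0 q = c := by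
  have h1 : Polynomial.X ^ e * ray q a = Polynomial.C c := by
    apply poly_ext_ne_zero
    intro x hx
    rw [Polynomial.eval_mul, Polynomial.eval_pow, Polynomial.eval_X, eval_ray,
      Polynomial.eval_C]
    exact h x hx
  have h2 := congrArg (fun r => Polynomial.eval 0 r) h1
  simp only [Polynomial.eval_mul, Polynomial.eval_pow, Polynomial.eval_X, eval_ray,
    Polynomial.eval_C, zero_smul] at h2
  exact h2

theorem coeff_dir_eq_zero {p : ℕ} {P : MvPolynomial (Fin n) F} (h : Hom p P)
    (a v : Fin n → F) {i : ℕ} (hi : p < i) : (dir a v P).coeff i = 0 := by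
  obtain ⟨q, hq⟩ := exists_coeff_dir P v i
  have := ext0 q a (i - p) ((dir a v P).coeff i) (by
    intro x hx
    rw [hq]
    have h1 := coeff_dir_smul h hx a v i
    have h2 : x ^ i = x ^ p * x ^ (i - p) := by
      rw [← pow_add]; congr 1; omega
    rw [h2] at h1
    have h3 : x ^ p * (x ^ (i - p) * (dir (x • a) v P).coeff i) =
        x ^ p * (dir a v P).coeff i := by
      rw [← h1]; ring
    exact mul_left_cancel₀ (pow_ne_zero _ hx) h3)
  rw [zero_pow (by omega), zero_mul] at this
  exact this.symm

theorem coeff_dir_top {p : ℕ} {P : MvPolynomial (Fin n) F} (h : Hom p P)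
    (a v : Fin n → F) : (dir a v P).coeff p = eval v P := by
  obtain ⟨q, hq⟩ := exists_coeff_dir P v p
  have := ext0 q a 0 ((dir a v P).coeff p) (by
    intro x hx
    rw [hq, pow_zero, one_mul]
    have h1 := coeff_dir_smul h hx a v p
    rw [mul_comm] at h1
    exact mul_left_cancel₀ (pow_ne_zero _ hx) h1)
  rw [pow_zero, one_mul, hq] at this
  rw [← this]
  change (ray P v).coeff p = _
  rw [ray_of_hom h]
  simp

theorem cw_eq_zero {p : ℕ} {P : MvPolynomial (Fin n) F} (h : Hom p P) (a : Fin n → F) {i : ℕ}
    (hi : p < i) : cw P i a = 0 := by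
  apply Polynomial.funext
  intro w
  rw [eval_cw, coeff_dir_eq_zero h _ _ hi, Polynomial.eval_zero]

theorem eval_cw_top {p : ℕ} {P : MvPolynomial (Fin n) F} (h : Hom p P) (a : Fin n → F) (w : F) :
    (cw P p a).eval w = eval (lag n w) P := by
  rw [eval_cw, coeff_dir_top h]

theorem hom_tc {p : ℕ} {P : MvPolynomial (Fin n) F} (h : Hom p P) {i : ℕ} (hi : i ≤ p)
    (c : F) (ρ : ℕ) : Hom (p - i) (tc P i c ρ) := by
  intro x hx a
  rw [eval_tc, eval_tc]
  have h1 : cw P i (x • a) = Polynomial.C (x ^ (p - i)) * cw P i a := by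
    apply Polynomial.funext
    intro w
    rw [Polynomial.eval_mul, Polynomial.eval_C, eval_cw, eval_cw]
    have h1 := coeff_dir_smul h hx a (lag n w) i
    have h2 : x ^ p = x ^ i * x ^ (p - i) := by
      rw [← pow_add]; congr 1; omega
    rw [h2] at h1
    have h3 : x ^ i * (dir (x • a) (lag n w) P).coeff i =
        x ^ i * (x ^ (p - i) * (dir a (lag n w) P).coeff i) := by
      rw [mul_comm, h1]; ring
    exact mul_left_cancel₀ (pow_ne_zero _ hx) h3
  rw [h1, Polynomial.taylor_mul, Polynomial.taylor_C, Polynomial.coeff_C_mul]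

/-- If `P` depends on the coordinates in `V` only, as a function, then `P.vars ⊆ V`. -/
theorem vars_subset_of_dep {P : MvPolynomial (Fin n) F} {V : Finset (Fin n)}
    (h : ∀ a b : Fin n → F, (∀ i ∈ V, a i = b i) → eval a P = eval b P) : P.vars ⊆ V := by
  intro i hi
  by_contra hiV
  rw [mem_vars_iff_mem_support] at hi
  obtain ⟨d, hd, hid⟩ := hi
  have hcf := cf_ne_zero i P hd
  obtain ⟨z, hz⟩ : ∃ z : Fin n → F, eval z (cf i (d i) P) ≠ 0 := by
    by_contra hcon
    push Not at hcon
    apply hcf
    apply MvPolynomial.funext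
    intro x
    rw [hcon x, map_zero]
  apply hz
  rw [← coeff_lineU]
  have : lineU i z P = Polynomial.C (eval z P) := by
    apply Polynomial.funext
    intro y
    rw [eval_lineU, Polynomial.eval_C]
    apply h
    intro j hj
    have : j ≠ i := fun h => hiV (h ▸ hj)
    rw [Function.update_of_ne this]
  rw [this, Polynomial.coeff_C, if_neg (Finsupp.mem_support_iff.mp hid)]

theorem vars_tc (P : MvPolynomial (Fin n) F) (i : ℕ) (c : F) (ρ : ℕ) :
    (tc P i c ρ).vars ⊆ P.vars := by
  apply vars_subset_of_dep
  intro a b hab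
  rw [eval_tc, eval_tc, cw_congr_vars hab]

/-- chain rule -/
theorem chain (g : Fin n → Polynomial F) (P : MvPolynomial (Fin n) F) :
    Polynomial.derivative (aeval g P) =
      ∑ l, aeval g (pderiv l P) * Polynomial.derivative (g l) := by
  induction P using MvPolynomial.induction_on with
  | C c =>
    simp
  | add p q hp hq =>
    simp only [map_add, hp, hq, add_mul, Finset.sum_add_distrib]
  | mul_X p l hp =>
    rw [map_mul, aeval_X, Polynomial.derivative_mul, hp, Finset.sum_mul]
    have : ∀ x : Fin n, aeval g (pderiv x (p * X l)) * Polynomial.derivative (g x) =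
        aeval g (pderiv x p) * Polynomial.derivative (g x) * g l +
          (if x = l then aeval g p * Polynomial.derivative (g l) else 0) := by
      intro x
      rw [Derivation.leibniz, map_add, smul_eq_mul, smul_eq_mul, map_mul, map_mul, aeval_X]
      by_cases hx : x = l
      · subst hx
        rw [pderiv_X_self, map_one, if_pos rfl]
        ring
      · rw [pderiv_X_of_ne (fun h => hx h.symm), map_zero, if_neg hx]
        ring
    rw [Finset.sum_congr rfl (fun x _ => this x), Finset.sum_add_distrib]
    simp

theorem euler {p : ℕ} {P : MvPolynomial (Fin n) F} (h : Hom p P) (hp : p ≠ 0) {a : Fin n → F}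
    (ha : eval a P ≠ 0) : ∃ i : Fin n, ∃ t : F, eval (a + Pi.single i t) P ≠ eval a P := by
  by_contra hcon
  push Not at hcon
  -- all partial derivatives vanish at `a`
  have hder : ∀ i : Fin n, eval a (pderiv i P) = 0 := by
    intro i
    have h1 : lineU i a P = Polynomial.C (eval a P) := by
      apply Polynomial.funext
      intro y
      rw [eval_lineU, Polynomial.eval_C, ← hcon i (y - a i)]
      congr 2
      funext j
      by_cases hj : j = i
      · subst hj; simp
      · simp [hj]
    have h2 := chain (Function.update (fun j => Polynomial.C (a j)) i Polynomial.X) P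
    change Polynomial.derivative (lineU i a P) = _ at h2
    rw [h1, Polynomial.derivative_C, Finset.sum_eq_single i] at h2
    · rw [Function.update_self, Polynomial.derivative_X, mul_one] at h2
      change 0 = lineU i a (pderiv i P) at h2
      have h3 := congrArg (fun r => Polynomial.eval (a i) r) h2
      simp only [Polynomial.eval_zero] at h3
      rw [eval_lineU, Function.update_eq_self] at h3
      exact h3.symm
    · intro j _ hj
      rw [Function.update_of_ne hj, Polynomial.derivative_C, mul_zero]
    · intro h; exact (h (Finset.mem_univ _)).elim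
  have h1 := chain (fun l => Polynomial.C (0 : F) + Polynomial.C (a l) * Polynomial.X) P
  change Polynomial.derivative (ray P a) = _ at h1
  rw [ray_of_hom h] at h1
  have h2 := congrArg (fun r => Polynomial.eval 1 r) h1
  simp only [Polynomial.derivative_C_mul, Polynomial.derivative_X_pow, Polynomial.eval_mul,
    Polynomial.eval_C, Polynomial.eval_pow, Polynomial.eval_X, Polynomial.eval_finset_sum,
    Polynomial.eval_natCast, one_pow, mul_one] at h2
  rw [Finset.sum_eq_zero] at h2
  · have : (p : F) ≠ 0 := by exact_mod_cast hp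
    exact (mul_ne_zero ha this) h2
  · intro l _
    have h3 : Polynomial.eval 1 ((aeval fun l => Polynomial.C (0 : F) +
        Polynomial.C (a l) * Polynomial.X) (pderiv l P)) = eval a (pderiv l P) := by
      have := eval_ray (pderiv l P) a 1
      rw [one_smul] at this
      exact this
    rw [h3, hder l, zero_mul]

end Pool.Agent.W2helper21.ROG
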