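import Pool.Agent.W2helper21.ROG.Hom

/-!
# Initial forms and Newton polytopes
-/

namespace Pool.Agent.W2helper21.ROG

open MvPolynomial

section Init

variable {F : Type*} [Field F] {M : ℕ}

/-- the weight of an exponent -/
def wt (o : Fin M → ℕ) (α : Fin M →₀ ℕ) : ℕ := ∑ m, o m * α m

/-- The part of `Φ` of weight `N`. -/
noncomputable def part (o : Fin M → ℕ) (N : ℕ) (Φ : MvPolynomial (Fin M) F) :
    MvPolynomial (Fin M) F :=
  msum (Φ.support.filter fun α => wt o α = N) id (fun α => coeff α Φ)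

theorem coeff_part (o : Fin M → ℕ) (N : ℕ) (Φ : MvPolynomial (Fin M) F) (α : Fin M →₀ ℕ) :
    coeff α (part o N Φ) = if wt o α = N then coeff α Φ else 0 := by
  classical
  rw [part, msum, coeff_sum]
  simp only [coeff_monomial, id]
  rw [Finset.sum_ite_eq' ]
  by_cases h : wt o α = N
  · rw [if_pos h]
    by_cases h2 : α ∈ Φ.support
    · rw [if_pos (Finset.mem_filter.mpr ⟨h2, h⟩)]
    · rw [if_neg (fun h3 => h2 (Finset.mem_filter.mp h3).1)]
      rw [notMem_support_iff] at h2
      exact h2.symm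
  · rw [if_neg h]
    apply if_neg
    intro h3
    exact h (Finset.mem_filter.mp h3).2

theorem mem_support_part {o : Fin M → ℕ} {N : ℕ} {Φ : MvPolynomial (Fin M) F}
    {α : Fin M →₀ ℕ} : α ∈ (part o N Φ).support ↔ α ∈ Φ.support ∧ wt o α = N := by
  rw [mem_support_iff, coeff_part, mem_support_iff]
  by_cases h : wt o α = N
  · simp [h]
  · simp [h]

theorem vars_part {o : Fin M → ℕ} {N : ℕ} {Φ : MvPolynomial (Fin M) F} :
    (part o N Φ).vars ⊆ Φ.vars := by
  intro i hi
  rw [mem_vars_iff_mem_support] at hi ⊢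
  obtain ⟨d, hd, hid⟩ := hi
  exact ⟨d, (mem_support_part.mp hd).1, hid⟩

theorem part_eq_self {o : Fin M → ℕ} {N : ℕ} {Φ : MvPolynomial (Fin M) F}
    (h : ∀ α ∈ Φ.support, wt o α = N) : part o N Φ = Φ := by
  ext α
  rw [coeff_part]
  by_cases h2 : α ∈ Φ.support
  · rw [if_pos (h α h2)]
  · rw [notMem_support_iff] at h2
    rw [h2]; simp

theorem eval_part (o : Fin M → ℕ) (N : ℕ) (Φ : MvPolynomial (Fin M) F) (z : Fin M → F) :
    eval z (part o N Φ) = ∑ α ∈ Φ.support.filter (fun α => wt o α = N),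
      coeff α Φ * ∏ m, z m ^ α m := by
  rw [part, msum, map_sum]
  apply Finset.sum_congr rfl
  intro α _
  rw [eval_monomial, id, Finsupp.prod_fintype]
  intro i; simp

theorem aeval_poly (Φ : MvPolynomial (Fin M) F) (p : Fin M → Polynomial F) :
    aeval p Φ = ∑ α ∈ Φ.support, Polynomial.C (coeff α Φ) * ∏ m, p m ^ α m := by
  rw [MvPolynomial.aeval_def, MvPolynomial.eval₂_eq']
  rfl

/-- initial forms: lowest terms -/
theorem coeff_init {o : Fin M → ℕ} {N : ℕ} {Φ : MvPolynomial (Fin M) F}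
    {p : Fin M → Polynomial F} (h : ∀ m ∈ Φ.vars, ∀ i < o m, (p m).coeff i = 0)
    (hN : ∀ α ∈ Φ.support, N ≤ wt o α) :
    (aeval p Φ).coeff N = eval (fun m => (p m).coeff (o m)) (part o N Φ) := by
  classical
  rw [aeval_poly, Polynomial.finset_sum_coeff, eval_part, Finset.sum_filter]
  apply Finset.sum_congr rfl
  intro α hα
  rw [Polynomial.coeff_C_mul]
  -- factor out powers of `X`
  have hfac : ∀ m, ∃ r : Polynomial F, p m ^ α m = Polynomial.X ^ (o m * α m) * r ∧
      r.coeff 0 = (p m).coeff (o m) ^ α m := by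
    intro m
    by_cases hm : α m = 0
    · exact ⟨1, by simp [hm], by simp [hm]⟩
    · have hmv : m ∈ Φ.vars := by
        rw [mem_vars_iff_mem_support]
        exact ⟨α, hα, Finsupp.mem_support_iff.mpr hm⟩
      obtain ⟨r, hr⟩ := Polynomial.X_pow_dvd_iff.mpr (h m hmv)
      refine ⟨r ^ α m, ?_, ?_⟩
      · rw [hr, mul_pow, ← pow_mul]
      · have : (p m).coeff (o m) = r.coeff 0 := by
          rw [hr, Polynomial.coeff_X_pow_mul', if_pos le_rfl, Nat.sub_self]
        rw [this, Polynomial.coeff_zero_eq_eval_zero, Polynomial.coeff_zero_eq_eval_zero,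
          Polynomial.eval_pow]
  choose r hr hr0 using hfac
  have hprod : ∏ m, p m ^ α m = Polynomial.X ^ (wt o α) * ∏ m, r m := by
    rw [Finset.prod_congr rfl (fun m _ => hr m), Finset.prod_mul_distrib,
      Finset.prod_pow_eq_pow_sum]
    rfl
  rw [hprod]
  by_cases hw : wt o α = N
  · rw [if_pos hw, Polynomial.coeff_X_pow_mul', if_pos hw.le, hw, Nat.sub_self,
      Polynomial.coeff_zero_eq_eval_zero, Polynomial.eval_prod]
    congr 1
    apply Finset.prod_congr rfl
    intro m _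
    rw [← Polynomial.coeff_zero_eq_eval_zero, hr0]
  · rw [if_neg hw, Polynomial.coeff_X_pow_mul', if_neg, mul_zero]
    have := hN α hα
    omega

/-- leading forms: highest terms -/
theorem coeff_lead {w : Fin M → ℕ} {N : ℕ} {Φ : MvPolynomial (Fin M) F}
    {p : Fin M → Polynomial F} (h : ∀ m ∈ Φ.vars, (p m).natDegree ≤ w m)
    (hN : ∀ α ∈ Φ.support, wt w α ≤ N) :
    (aeval p Φ).natDegree ≤ N ∧
    (aeval p Φ).coeff N = eval (fun m => (p m).coeff (w m)) (part w N Φ) := by
  classical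
  have key : ∀ α ∈ Φ.support, ∀ s : Finset (Fin M),
      (∏ m ∈ s, p m ^ α m).natDegree ≤ ∑ m ∈ s, w m * α m ∧
      (∏ m ∈ s, p m ^ α m).coeff (∑ m ∈ s, w m * α m) =
        ∏ m ∈ s, (p m).coeff (w m) ^ α m := by
    intro α hα s
    induction s using Finset.induction_on with
    | empty => simp
    | insert m s hms ih =>
      rw [Finset.prod_insert hms, Finset.sum_insert hms, Finset.prod_insert hms]
      have h1 : (p m ^ α m).natDegree ≤ w m * α m ∧
          (p m ^ α m).coeff (w m * α m) = (p m).coeff (w m) ^ α m := by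
        by_cases hm : α m = 0
        · simp [hm]
        · have hmv : m ∈ Φ.vars := by
            rw [mem_vars_iff_mem_support]
            exact ⟨α, hα, Finsupp.mem_support_iff.mpr hm⟩
          constructor
          · refine (Polynomial.natDegree_pow_le).trans ?_
            rw [mul_comm]
            exact Nat.mul_le_mul_right _ (h m hmv)
          · rw [mul_comm (w m)]
            exact Polynomial.coeff_pow_of_natDegree_le (h m hmv)
      refine ⟨Polynomial.natDegree_mul_le.trans (Nat.add_le_add h1.1 ih.1), ?_⟩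
      rw [Polynomial.coeff_mul_add_eq_of_natDegree_le h1.1 ih.1, h1.2, ih.2]
  rw [aeval_poly]
  constructor
  · apply Polynomial.natDegree_sum_le_of_forall_le
    intro α hα
    refine (Polynomial.natDegree_C_mul_le _ _).trans ?_
    exact (key α hα Finset.univ).1.trans (hN α hα)
  · rw [Polynomial.finset_sum_coeff, eval_part, Finset.sum_filter]
    apply Finset.sum_congr rfl
    intro α hα
    rw [Polynomial.coeff_C_mul]
    have h1 := key α hα Finset.univ
    by_cases hw : wt w α = N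
    · rw [if_pos hw, ← hw]
      congr 1
      exact h1.2
    · rw [if_neg hw]
      have h2 : (∏ m, p m ^ α m).natDegree < N :=
        lt_of_le_of_lt h1.1 (lt_of_le_of_ne (hN α hα) hw)
      rw [Polynomial.coeff_eq_zero_of_natDegree_lt h2, mul_zero]

end Init

section Space

variable {F : Type*} [Field F] {M : ℕ}

/-- the exponent vector -/
def ev (α : Fin M →₀ ℕ) : Fin M → ℚ := fun m => (α m : ℚ)

/-- The direction space of the affine span of the Newton polytope of `Φ`. -/
def nspace (Φ : MvPolynomial (Fin M) F) : Submodule ℚ (Fin M → ℚ) :=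
  vectorSpan ℚ {v : Fin M → ℚ | ∃ α ∈ Φ.support, v = ev α}

theorem sub_mem_nspace {Φ : MvPolynomial (Fin M) F} {α β : Fin M →₀ ℕ} (hα : α ∈ Φ.support)
    (hβ : β ∈ Φ.support) : ev α - ev β ∈ nspace Φ := by
  rw [nspace]
  exact vsub_mem_vectorSpan ℚ ⟨α, hα, rfl⟩ ⟨β, hβ, rfl⟩

theorem nspace_le {Φ : MvPolynomial (Fin M) F} {W : Submodule ℚ (Fin M → ℚ)}
    (h : ∀ α ∈ Φ.support, ∀ β ∈ Φ.support, ev α - ev β ∈ W) : nspace Φ ≤ W := by
  rw [nspace, vectorSpan_def, Submodule.span_le]
  rintro v hv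
  rw [Set.mem_vsub] at hv
  obtain ⟨_, ⟨α, hα, rfl⟩, _, ⟨β, hβ, rfl⟩, rfl⟩ := hv
  exact h α hα β hβ

/-- pairing with a weight -/
def pair (o : Fin M → ℕ) : (Fin M → ℚ) →ₗ[ℚ] ℚ :=
  ∑ m, (o m : ℚ) • LinearMap.proj m

theorem pair_apply (o : Fin M → ℕ) (v : Fin M → ℚ) : pair o v = ∑ m, (o m : ℚ) * v m := by
  simp [pair]

theorem pair_ev (o : Fin M → ℕ) (α : Fin M →₀ ℕ) : pair o (ev α) = (wt o α : ℚ) := by
  rw [pair_apply, wt]
  push_cast
  rfl

theorem nspace_part (o : Fin M → ℕ) (N : ℕ) (Φ : MvPolynomial (Fin M) F) :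
    nspace (part o N Φ) ≤ nspace Φ ⊓ LinearMap.ker (pair o) := by
  apply nspace_le
  intro α hα β hβ
  rw [mem_support_part] at hα hβ
  refine ⟨sub_mem_nspace hα.1 hβ.1, ?_⟩
  change pair o (ev α - ev β) = 0
  rw [map_sub, pair_ev, pair_ev, hα.2, hβ.2, sub_self]

theorem finrank_part_lt {o : Fin M → ℕ} {N : ℕ} {Φ : MvPolynomial (Fin M) F} {δ : Fin M → ℚ}
    (hδ : δ ∈ nspace Φ) (h : pair o δ ≠ 0) :
    Module.finrank ℚ (nspace (part o N Φ)) < Module.finrank ℚ (nspace Φ) := by
  apply Submodule.finrank_lt_finrank_of_lt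
  refine lt_of_le_of_lt (nspace_part o N Φ) ?_
  refine lt_of_le_of_ne inf_le_left ?_
  intro heq
  apply h
  have : δ ∈ nspace Φ ⊓ LinearMap.ker (pair o) := by rw [heq]; exact hδ
  exact LinearMap.mem_ker.mp this.2

theorem eq_zero_of_mem_nspace {Φ : MvPolynomial (Fin M) F} {δ : Fin M → ℚ}
    (hδ : δ ∈ nspace Φ) {m : Fin M} (hm : m ∉ Φ.vars) : δ m = 0 := by
  have : nspace Φ ≤ LinearMap.ker (LinearMap.proj (R := ℚ) (φ := fun _ : Fin M => ℚ) m) := by
    apply nspace_le
    intro α hα β hβ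
    rw [LinearMap.mem_ker, LinearMap.proj_apply, Pi.sub_apply]
    have hz : ∀ γ ∈ Φ.support, γ m = 0 := by
      intro γ hγ
      by_contra h
      apply hm
      rw [mem_vars_iff_mem_support]
      exact ⟨γ, hγ, Finsupp.mem_support_iff.mpr h⟩
    simp [ev, hz α hα, hz β hβ]
  exact this hδ

theorem eq_of_nspace_bot {Φ : MvPolynomial (Fin M) F} (h : nspace Φ = ⊥) {α β : Fin M →₀ ℕ}
    (hα : α ∈ Φ.support) (hβ : β ∈ Φ.support) : α = β := by
  have h1 := sub_mem_nspace hα hβ
  rw [h, Submodule.mem_bot] at h1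
  ext m
  have := congrFun h1 m
  simp only [ev, Pi.sub_apply, Pi.zero_apply] at this
  have h2 : (α m : ℚ) = (β m : ℚ) := by linarith
  exact_mod_cast h2

end Space

end Pool.Agent.W2helper21.ROG
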