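import Pool.Agent.W2helper21.ROG.Newton

/-!
# Orders along the image of the generator
-/

namespace Pool.Agent.W2helper21.ROG

open MvPolynomial

variable {F : Type*} [Field F] [CharZero F] {n : ℕ}

/-- `P` does not vanish on the image of the generator with `k` pairs of seeds. -/
def NZ (k : ℕ) (P : MvPolynomial (Fin n) F) : Prop := ∃ a ∈ Im F n k, eval a P ≠ 0

/-- order of vanishing in `y` -/
noncomputable def ordY (k : ℕ) (P : MvPolynomial (Fin n) F) : ℕ :=
  sInf {i | ∃ a ∈ Im F n k, cw P i a ≠ 0}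

/-- order of vanishing at `w = c` -/
noncomputable def ordW (k : ℕ) (P : MvPolynomial (Fin n) F) (i : ℕ) (c : F) : ℕ :=
  sInf {ρ | ∃ a ∈ Im F n k, (Polynomial.taylor c (cw P i a)).coeff ρ ≠ 0}

omit [CharZero F] in
theorem ordY_set_nonempty {k : ℕ} {P : MvPolynomial (Fin n) F} (h : NZ (k + 1) P) :
    {i | ∃ a ∈ Im F n k, cw P i a ≠ 0}.Nonempty := by
  obtain ⟨x, hx, hne⟩ := h
  obtain ⟨a, ha, u, y, rfl⟩ := Im_succ hx
  by_contra hcon
  rw [Set.not_nonempty_iff_eq_empty, Set.eq_empty_iff_forall_notMem] at hcon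
  apply hne
  rw [← eval_dir]
  have : dir a (lag n u) P = 0 := by
    ext i
    rw [← eval_cw]
    have h1 := hcon i
    simp only [Set.mem_setOf_eq, not_exists, not_and, not_not] at h1
    rw [h1 a ha]
    simp
  rw [this, Polynomial.eval_zero]

omit [CharZero F] in
theorem ordY_spec {k : ℕ} {P : MvPolynomial (Fin n) F} (h : NZ (k + 1) P) :
    ∃ a ∈ Im F n k, cw P (ordY k P) a ≠ 0 := Nat.sInf_mem (ordY_set_nonempty h)

omit [CharZero F] in
theorem ordY_min {k i : ℕ} {P : MvPolynomial (Fin n) F} (h : i < ordY k P) {a : Fin n → F}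
    (ha : a ∈ Im F n k) : cw P i a = 0 := by
  by_contra hne
  exact (Nat.notMem_of_lt_sInf h) ⟨a, ha, hne⟩

theorem ordY_of_NZ {k : ℕ} {P : MvPolynomial (Fin n) F} (h : NZ k P) : ordY k P = 0 := by
  obtain ⟨a, ha, hne⟩ := h
  apply Nat.eq_zero_of_le_zero
  apply Nat.sInf_le
  refine ⟨a, ha, ?_⟩
  rw [cw_zero]
  simpa using hne

theorem ordY_pos {k : ℕ} {P : MvPolynomial (Fin n) F} (h : NZ (k + 1) P) (h' : ¬ NZ k P) :
    1 ≤ ordY k P := by
  by_contra hcon
  have h0 : ordY k P = 0 := by omega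
  obtain ⟨a, ha, hne⟩ := ordY_spec h
  rw [h0, cw_zero] at hne
  exact h' ⟨a, ha, fun h => hne (by rw [h, map_zero])⟩

theorem ordY_le {k p : ℕ} {P : MvPolynomial (Fin n) F} (hp : Hom p P) (h : NZ (k + 1) P) :
    ordY k P ≤ p := by
  by_contra hcon
  obtain ⟨a, ha, hne⟩ := ordY_spec h
  exact hne (cw_eq_zero hp a (by omega))

theorem ordY_lt {k p : ℕ} {P : MvPolynomial (Fin n) F} (hp : Hom p P) (hp0 : p ≠ 0)
    (hk : k ≠ 0) (h : NZ (k + 1) P) : ordY k P < p := by
  by_cases h' : NZ k P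
  · rw [ordY_of_NZ h']; omega
  refine lt_of_le_of_ne (ordY_le hp h) ?_
  intro heq
  obtain ⟨a, ha, hne⟩ := ordY_spec h
  rw [heq] at hne
  apply hne
  apply Polynomial.funext
  intro w
  rw [eval_cw_top hp, Polynomial.eval_zero]
  by_contra hne2
  apply h'
  refine ⟨lag n w, ?_, hne2⟩
  have h1 : (0 : Fin n → F) + (1 : F) • lag n w ∈ Im F n (0 + 1) := Im_add (Im_zero n) w 1
  have h2 : (0 : Fin n → F) + (1 : F) • lag n w = lag n w := by rw [zero_add, one_smul]
  rw [h2] at h1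
  exact Im_mono (by omega) h1

omit [CharZero F] in
theorem ordW_spec {k i : ℕ} {P : MvPolynomial (Fin n) F} (c : F)
    (h : ∃ a ∈ Im F n k, cw P i a ≠ 0) :
    ∃ a ∈ Im F n k, (Polynomial.taylor c (cw P i a)).coeff (ordW k P i c) ≠ 0 := by
  obtain ⟨a, ha, hne⟩ := h
  have hs : {ρ | ∃ a ∈ Im F n k, (Polynomial.taylor c (cw P i a)).coeff ρ ≠ 0}.Nonempty := by
    by_contra hcon
    rw [Set.not_nonempty_iff_eq_empty, Set.eq_empty_iff_forall_notMem] at hcon
    apply hne
    apply Polynomial.taylor_injective c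
    rw [map_zero]
    ext ρ
    have h1 := hcon ρ
    simp only [Set.mem_setOf_eq, not_exists, not_and, not_not] at h1
    rw [h1 a ha, Polynomial.coeff_zero]
  exact Nat.sInf_mem hs

omit [CharZero F] in
theorem ordW_min {k i ρ : ℕ} {P : MvPolynomial (Fin n) F} {c : F} (h : ρ < ordW k P i c)
    {a : Fin n → F} (ha : a ∈ Im F n k) : (Polynomial.taylor c (cw P i a)).coeff ρ = 0 := by
  by_contra hne
  exact (Nat.notMem_of_lt_sInf h) ⟨a, ha, hne⟩

theorem ordW_of_NZ {k : ℕ} {P : MvPolynomial (Fin n) F} (h : NZ k P) (c : F) :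
    ordW k P 0 c = 0 := by
  obtain ⟨a, ha, hne⟩ := h
  apply Nat.eq_zero_of_le_zero
  apply Nat.sInf_le
  refine ⟨a, ha, ?_⟩
  rw [cw_zero, Polynomial.taylor_C, Polynomial.coeff_C_zero]
  exact hne

omit [CharZero F] in
theorem taylor_linear (c : F) :
    Polynomial.taylor c (Polynomial.X - Polynomial.C c) = Polynomial.X := by
  rw [map_sub, Polynomial.taylor_X, Polynomial.taylor_C]
  ring

omit [CharZero F] in
theorem taylor_linear_pow (c : F) (i : ℕ) (q : Polynomial F) :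
    Polynomial.taylor c ((Polynomial.X - Polynomial.C c) ^ i * q) =
      Polynomial.X ^ i * Polynomial.taylor c q := by
  rw [Polynomial.taylor_mul, Polynomial.taylor_pow, taylor_linear]

omit [CharZero F] in
theorem ordW_ge {k i : ℕ} {P : MvPolynomial (Fin n) F} {j : Fin n} (hj : j ∉ P.vars)
    (h : ∃ a ∈ Im F n k, cw P i a ≠ 0) : i ≤ ordW k P i ((j : ℕ) : F) := by
  by_contra hcon
  push Not at hcon
  obtain ⟨a, ha, hne⟩ := ordW_spec ((j : ℕ) : F) h
  apply hne
  obtain ⟨q, hq⟩ := dvd_cw hj i a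
  rw [hq, taylor_linear_pow, Polynomial.coeff_X_pow_mul', if_neg (by omega)]

omit [CharZero F] in
theorem dvd_of_taylor {c : F} {e : ℕ} {q : Polynomial F}
    (h : ∀ ρ < e, (Polynomial.taylor c q).coeff ρ = 0) :
    (Polynomial.X - Polynomial.C c) ^ e ∣ q := by
  obtain ⟨r, hr⟩ := Polynomial.X_pow_dvd_iff.mpr h
  refine ⟨Polynomial.taylor (-c) r, ?_⟩
  apply Polynomial.taylor_injective c
  rw [taylor_linear_pow, Polynomial.taylor_taylor, hr]
  simp

theorem sum_ordW {k i : ℕ} {P : MvPolynomial (Fin n) F}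
    (h : ∃ a ∈ Im F n k, cw P i a ≠ 0) :
    ∑ j : Fin n, ordW k P i (((j : ℕ) : F)) ≤ i * (n - 1) := by
  obtain ⟨a, ha, hne⟩ := h
  have hdvd : (∏ j : Fin n, (Polynomial.X - Polynomial.C ((j : ℕ) : F)) ^
      ordW k P i (((j : ℕ) : F))) ∣ cw P i a := by
    apply Finset.prod_dvd_of_coprime
    · intro j _ j' _ hjj
      apply IsCoprime.pow
      apply Polynomial.isCoprime_X_sub_C_of_isUnit_sub
      rw [isUnit_iff_ne_zero, sub_ne_zero]
      intro h
      apply hjj
      rw [Nat.cast_inj] at h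
      exact Fin.ext h
    · intro j _
      exact dvd_of_taylor fun ρ hρ => ordW_min hρ ha
  have h1 := Polynomial.natDegree_le_of_dvd hdvd hne
  rw [Polynomial.natDegree_prod_of_monic _ _ (fun j _ => (Polynomial.monic_X_sub_C _).pow _)] at h1
  simp only [Polynomial.natDegree_pow, Polynomial.natDegree_X_sub_C, mul_one] at h1
  exact h1.trans (natDegree_cw P i a)

end Pool.Agent.W2helper21.ROG
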