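import Pool.Agent.W2helper21.ROG.Good

/-!
# Read-once formulas over arbitrary polynomial gates
-/

namespace Pool.Agent.W2helper21.ROG

open MvPolynomial

universe u

/-- Formulas over arbitrary polynomial gates, in the variables `x_i`, `i : Fin n`. A leaf is a
polynomial in the variables; a gate applies a polynomial `Φ`, of any degree and in any number `m`
of arguments, to `m` subformulas. -/
inductive RFormula (F : Type u) [Field F] (n : ℕ) : Type u
  | leaf (p : MvPolynomial (Fin n) F) : RFormula F n
  | gate {m : ℕ} (Φ : MvPolynomial (Fin m) F) (A : Fin m → RFormula F n) : RFormula F n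

/-- The dimension of the Newton polytope of `Φ`, that is, of the affine span of the exponent
vectors of the monomials of `Φ`. -/
noncomputable def newtonDim {F : Type u} [Field F] {m : ℕ} (Φ : MvPolynomial (Fin m) F) : ℕ :=
  Module.finrank ℚ (vectorSpan ℚ {v : Fin m → ℚ | ∃ α ∈ Φ.support, v = fun i => (α i : ℚ)})

/-- `k`-small gates: affine functions, polynomials which depend on at most `k + 1` of their
arguments, and polynomials with a Newton polytope of dimension at most `k`. -/
def SmallGate {F : Type u} [Field F] {m : ℕ} (k : ℕ) (Φ : MvPolynomial (Fin m) F) : Prop :=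
  Φ.totalDegree ≤ 1 ∨ Φ.vars.card ≤ k + 1 ∨ newtonDim Φ ≤ k

namespace RFormula

variable {F : Type u} [Field F] {n : ℕ}

/-- The polynomial computed by a formula. -/
noncomputable def toPoly : RFormula F n → MvPolynomial (Fin n) F
  | leaf p => p
  | gate Φ A => bind₁ (fun j => (A j).toPoly) Φ

/-- The variables which occur in the leaves of a formula. -/
noncomputable def vars : RFormula F n → Finset (Fin n)
  | leaf p => p.vars
  | gate _ A => Finset.univ.biUnion fun j => (A j).vars

/-- Each variable occurs in at most one leaf. -/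
def ReadOnce : RFormula F n → Prop
  | leaf _ => True
  | gate _ A => (∀ j, (A j).ReadOnce) ∧ Pairwise fun j j' => Disjoint (A j).vars (A j').vars

/-- Each leaf has fewer than `2 ^ k` monomials, and each gate is `k`-small or has fewer than
`2 ^ c` monomials. -/
def Admissible (k c : ℕ) : RFormula F n → Prop
  | leaf p => p.support.card < 2 ^ k
  | gate Φ A => (SmallGate k Φ ∨ Φ.support.card < 2 ^ c) ∧ ∀ j, (A j).Admissible k c

open Classical in
/-- The maximal number of gates on a path which are not `k`-small. -/
noncomputable def bigDepth (k : ℕ) : RFormula F n → ℕ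
  | leaf _ => 0
  | gate Φ A => (Finset.univ.sup fun j => (A j).bigDepth k) + (if SmallGate k Φ then 0 else 1)

theorem vars_toPoly : ∀ f : RFormula F n, f.toPoly.vars ⊆ f.vars
  | leaf p => by rw [toPoly, vars]
  | gate Φ A => by
    classical
    rw [toPoly, vars]
    refine (vars_bind₁ _ _).trans ?_
    intro i hi
    rw [Finset.mem_biUnion] at hi ⊢
    obtain ⟨j, _, hj⟩ := hi
    exact ⟨j, Finset.mem_univ _, vars_toPoly (A j) hj⟩

end RFormula

section

variable {F : Type u} [Field F] {n : ℕ}

theorem newtonDim_eq {m : ℕ} (Φ : MvPolynomial (Fin m) F) :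
    newtonDim Φ = Module.finrank ℚ (nspace Φ) := rfl

/-- projection to the coordinates in `S` -/
def projS {M : ℕ} (S : Finset (Fin M)) : (Fin M → ℚ) →ₗ[ℚ] (Fin M → ℚ) where
  toFun v := fun m => if m ∈ S then v m else 0
  map_add' v w := by
    funext m
    by_cases h : m ∈ S <;> simp [h]
  map_smul' c v := by
    funext m
    by_cases h : m ∈ S <;> simp [h]

theorem newtonDim_spec {m : ℕ} (S : Finset (Fin m)) (z : Fin m → F) (Φ : MvPolynomial (Fin m) F) :
    newtonDim (spec S z Φ) ≤ newtonDim Φ := by
  classical
  rw [newtonDim_eq, newtonDim_eq]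
  have hle : nspace (spec S z Φ) ≤ (nspace Φ).map (projS S) := by
    apply nspace_le
    intro α hα β hβ
    rw [spec_eq] at hα hβ
    obtain ⟨α', hα', rfl⟩ := Finset.mem_image.mp (support_msum _ _ _ hα)
    obtain ⟨β', hβ', rfl⟩ := Finset.mem_image.mp (support_msum _ _ _ hβ)
    refine ⟨_, sub_mem_nspace hα' hβ', ?_⟩
    funext i
    change (if i ∈ S then (ev α' - ev β') i else 0) = _
    simp only [ev, Pi.sub_apply]
    by_cases h : i ∈ S
    · rw [if_pos h, Finsupp.filter_apply_pos (fun i => i ∈ S) _ h,
        Finsupp.filter_apply_pos (fun i => i ∈ S) _ h]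
    · rw [if_neg h, Finsupp.filter_apply_neg (fun i => i ∈ S) _ h,
        Finsupp.filter_apply_neg (fun i => i ∈ S) _ h]
      simp
  exact (Submodule.finrank_mono hle).trans (Submodule.finrank_map_le _ _)

theorem small_spec {m k : ℕ} (S : Finset (Fin m)) (z : Fin m → F) {Φ : MvPolynomial (Fin m) F}
    (h : SmallGate k Φ) : SmallGate k (spec S z Φ) := by
  rcases h with h | h | h
  · exact Or.inl ((totalDegree_spec S z Φ).trans h)
  · refine Or.inr (Or.inl (le_trans (Finset.card_le_card ?_) h))
    intro i hi
    exact (vars_spec S z Φ hi).1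
  · exact Or.inr (Or.inr ((newtonDim_spec S z Φ).trans h))

end

namespace RFormula

variable {F : Type u} [Field F] {n : ℕ}

/-- Constant arguments of a gate can be substituted. -/
theorem reduce_gate {M : ℕ} (Φ : MvPolynomial (Fin M) F) (A : Fin M → RFormula F n)
    (hne : (gate Φ A).toPoly.vars.Nonempty) : ∃ Φ' : MvPolynomial (Fin M) F,
      Φ'.vars.Nonempty ∧ (∀ m ∈ Φ'.vars, (A m).toPoly.vars.Nonempty) ∧
      (gate Φ A).toPoly = bind₁ (fun m => (A m).toPoly) Φ' ∧
      (∀ k, SmallGate k Φ → SmallGate k Φ') ∧ Φ'.support.card ≤ Φ.support.card := by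
  classical
  let S : Finset (Fin M) := Finset.univ.filter fun j => (A j).toPoly.vars.Nonempty
  let z : Fin M → F := fun j => coeff 0 (A j).toPoly
  have hz : ∀ j ∉ S, (A j).toPoly = C (z j) := by
    intro j hj
    have : (A j).toPoly.vars = ∅ := by
      rw [← Finset.not_nonempty_iff_eq_empty]
      intro h
      exact hj (Finset.mem_filter.mpr ⟨Finset.mem_univ _, h⟩)
    rw [vars_eq_empty_iff_eq_C] at this
    exact this
  have hspec : (gate Φ A).toPoly = bind₁ (fun m => (A m).toPoly) (spec S z Φ) := by
    rw [aeval_spec S z Φ _ hz]; rfl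
  refine ⟨spec S z Φ, ?_, ?_, hspec, fun k h => small_spec S z h, card_spec S z Φ⟩
  · by_contra hcon
    rw [Finset.not_nonempty_iff_eq_empty, vars_eq_empty_iff_eq_C] at hcon
    rw [hspec, hcon, bind₁_C_right, vars_C] at hne
    exact Finset.not_nonempty_empty hne
  · intro m hm
    exact (Finset.mem_filter.mp (vars_spec S z Φ hm).2).2

theorem disjoint_toPoly {M : ℕ} {A : Fin M → RFormula F n}
    (h : Pairwise fun j j' => Disjoint (A j).vars (A j').vars) :
    Pairwise fun j j' => Disjoint (A j).toPoly.vars (A j').toPoly.vars := by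
  intro j j' hjj
  exact Finset.disjoint_of_subset_left (vars_toPoly _)
    (Finset.disjoint_of_subset_right (vars_toPoly _) (h hjj))

/-- the depth version -/
theorem good_depth [CharZero F] {k c : ℕ} (hk : k ≠ 0) : ∀ f : RFormula F n, f.ReadOnce →
    f.Admissible k c → f.toPoly.vars.Nonempty → Good (k + c * f.bigDepth k) f.toPoly
  | leaf p => by
    intro _ hadm hne
    exact good_mono (Nat.le_add_right _ _) (good_leaf p hne hadm)
  | gate (m := M) Φ A => by
    classical
    intro hro hadm hne
    obtain ⟨Φ', hv, hch, heq, hsm, hcard⟩ := reduce_gate Φ A hne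
    have hdisj := disjoint_toPoly hro.2
    rw [heq]
    set s : ℕ := Finset.univ.sup fun j => (A j).bigDepth k with hs
    have ih : ∀ m ∈ Φ'.vars, Good (k + c * s) (A m).toPoly := fun m hm =>
      good_mono (Nat.add_le_add_left (Nat.mul_le_mul_left c
        (Finset.le_sup (f := fun j => (A j).bigDepth k) (Finset.mem_univ m))) k)
        (good_depth hk (A m) (hro.1 m) (hadm.2 m) (hch m hm))
    by_cases hsmall : SmallGate k Φ
    · have hd : (gate Φ A).bigDepth k = s := by
        rw [bigDepth, if_pos hsmall, add_zero]
      rw [hd]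
      apply good_gate Φ' _ (fun _ => k + c * s) hv hdisj ih
      intro w N T h1 h2 h3 h4
      apply close_small (k := k + c * s) (by omega) Φ' _ w N T h1 h2 h3 h4
      rcases hsm k hsmall with h | h | h
      · exact Or.inl h
      · exact Or.inr (Or.inl (by omega))
      · rw [newtonDim_eq] at h
        exact Or.inr (Or.inr (by omega))
    · have hd : (gate Φ A).bigDepth k = s + 1 := by
        rw [bigDepth, if_neg hsmall]
      rw [hd]
      have hc : Φ.support.card < 2 ^ c := by
        rcases hadm.1 with h | h
        · exact absurd h hsmall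
        · exact h
      apply good_gate Φ' _ (fun _ => k + c * s) hv hdisj ih
      intro w N T h1 h2 h3 h4
      have hpc : (part w N Φ').support.card < 2 ^ c :=
        lt_of_le_of_lt ((Finset.card_le_card fun α hα => (mem_support_part.mp hα).1).trans hcard) hc
      obtain ⟨j, hj⟩ := hv
      apply claim_sparse (k' := k + c * s) (c := c) (part w N Φ') h1 T w h3
        (fun m hm => (h4 m (vars_part hm)).1) (fun m hm => (h4 m (vars_part hm)).2.1) j
        (fun hm => NZ_mono (by rw [Nat.mul_succ]; omega) (h4 j (vars_part hm)).2.2)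
        (fun m hm _ => (h4 m (vars_part hm)).2.2) hpc
      rw [Nat.mul_succ]; omega

/-- the size version -/
theorem good_log [CharZero F] {k c : ℕ} (hk : k ≠ 0) : ∀ f : RFormula F n, f.ReadOnce →
    f.Admissible k c → f.toPoly.vars.Nonempty →
    Good (k + c * Nat.log 2 f.vars.card) f.toPoly
  | leaf p => by
    intro _ hadm hne
    exact good_mono (Nat.le_add_right _ _) (good_leaf p hne hadm)
  | gate (m := M) Φ A => by
    classical
    intro hro hadm hne
    obtain ⟨Φ', hv, hch, heq, hsm, hcard⟩ := reduce_gate Φ A hne
    have hdisj := disjoint_toPoly hro.2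
    rw [heq]
    set L : ℕ := (gate Φ A).vars.card with hL
    have hsub : ∀ j, (A j).vars ⊆ (gate Φ A).vars := by
      intro j
      rw [vars]
      exact Finset.subset_biUnion_of_mem (fun j => (A j).vars) (Finset.mem_univ j)
    have ih : ∀ m ∈ Φ'.vars, Good (k + c * Nat.log 2 (A m).vars.card) (A m).toPoly := fun m hm =>
      good_log hk (A m) (hro.1 m) (hadm.2 m) (hch m hm)
    have hmono : ∀ m, k + c * Nat.log 2 (A m).vars.card ≤ k + c * Nat.log 2 L := fun m =>
      Nat.add_le_add_left (Nat.mul_le_mul_left c (Nat.log_mono_right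
        (Finset.card_le_card (hsub m)))) k
    by_cases hsmall : SmallGate k Φ
    · apply good_gate Φ' _ (fun m => k + c * Nat.log 2 (A m).vars.card) hv hdisj ih
      intro w N T h1 h2 h3 h4
      apply close_small (k := k + c * Nat.log 2 L) (by omega) Φ' _ w N T h1 h2 h3
        (fun m hm => ⟨(h4 m hm).1, (h4 m hm).2.1, NZ_mono (hmono m) (h4 m hm).2.2⟩)
      rcases hsm k hsmall with h | h | h
      · exact Or.inl h
      · exact Or.inr (Or.inl (by omega))
      · rw [newtonDim_eq] at h
        exact Or.inr (Or.inr (by omega))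
    · have hc : Φ.support.card < 2 ^ c := by
        rcases hadm.1 with h | h
        · exact absurd h hsmall
        · exact h
      apply good_gate Φ' _ (fun m => k + c * Nat.log 2 (A m).vars.card) hv hdisj ih
      intro w N T h1 h2 h3 h4
      have hpc : (part w N Φ').support.card < 2 ^ c :=
        lt_of_le_of_lt ((Finset.card_le_card fun α hα => (mem_support_part.mp hα).1).trans hcard) hc
      obtain ⟨j, hj, hmax⟩ := Finset.exists_max_image Φ'.vars (fun m => (A m).vars.card) hv
      -- the other arguments have at most half of the variables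
      have hhalf : ∀ m ∈ Φ'.vars, m ≠ j → Nat.log 2 (A m).vars.card + 1 ≤ Nat.log 2 L := by
        intro m hm hmj
        have h5 : (A m).vars.card + (A j).vars.card ≤ L := by
          rw [← Finset.card_union_of_disjoint (hro.2 hmj)]
          exact Finset.card_le_card (Finset.union_subset (hsub m) (hsub j))
        have h6 := hmax m hm
        have h7 : 0 < (A m).vars.card := Finset.card_pos.mpr ((hch m hm).mono (vars_toPoly _))
        have h8 : Nat.log 2 ((A m).vars.card * 2) = Nat.log 2 (A m).vars.card + 1 :=
          Nat.log_mul_base (by norm_num) (by omega)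
        rw [← h8]
        apply Nat.log_mono_right
        omega
      by_cases hone : ∀ m ∈ Φ'.vars, m = j
      · -- essentially a univariate gate
        apply close_small (k := k + c * Nat.log 2 L) (by omega) Φ' _ w N T h1 h2 h3
          (fun m hm => ⟨(h4 m hm).1, (h4 m hm).2.1, NZ_mono (hmono m) (h4 m hm).2.2⟩)
        refine Or.inr (Or.inl ?_)
        have : Φ'.vars ⊆ {j} := fun m hm => Finset.mem_singleton.mpr (hone m hm)
        have := Finset.card_le_card this
        rw [Finset.card_singleton] at this
        omega
      · push Not at hone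
        obtain ⟨m₁, hm₁, hmj₁⟩ := hone
        have hlog := hhalf m₁ hm₁ hmj₁
        obtain ⟨t, ht⟩ : ∃ t, Nat.log 2 L = t + 1 := ⟨Nat.log 2 L - 1, by omega⟩
        rw [ht]
        have hmono' : ∀ m ∈ Φ'.vars, m ≠ j → k + c * Nat.log 2 (A m).vars.card ≤ k + c * t := by
          intro m hm hmj
          have := hhalf m hm hmj
          exact Nat.add_le_add_left (Nat.mul_le_mul_left c (by omega)) k
        apply claim_sparse (k' := k + c * t) (c := c) (part w N Φ') h1 T w h3
          (fun m hm => (h4 m (vars_part hm)).1) (fun m hm => (h4 m (vars_part hm)).2.1) j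
          (fun hm => NZ_mono (by rw [← ht]; exact hmono j) (h4 j (vars_part hm)).2.2)
          (fun m hm hmj => NZ_mono (hmono' m (vars_part hm) hmj) (h4 m (vars_part hm)).2.2) hpc
        rw [Nat.mul_succ]; omega

end RFormula

end Pool.Agent.W2helper21.ROG
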