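import Mathlib
import Pool.Agent.W2helper21.ROG.Grid

/-!
# Explicit hitting sets for read-once formulas over arbitrary polynomial gates

A read-once formula has arbitrary polynomials as gates (of any degree, in any number of arguments);
its leaves are polynomials in pairwise disjoint sets of variables.

Let `L_i`, `i = 0, …, n - 1`, be the Lagrange polynomials on the nodes `0, …, n - 1`. The set
`hittingSet F n d K` consists of the points `∑_{l < K} y_l (L_0(u_l), …, L_{n-1}(u_l))` with
`u_l ∈ {0, …, (n - 1) d}` and `y_l ∈ {0, …, d}`.

The theorem: if every leaf has fewer than `2 ^ k` monomials (`k ≥ 1`) and every gate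

* is affine, or depends on at most `k + 1` of its arguments, or has a Newton polytope of
  dimension at most `k` (in particular: has at most `k + 1` monomials), or
* has fewer than `2 ^ c` monomials (and any number of arguments),

then a nonzero polynomial of degree at most `d` computed by the formula does not vanish on
`hittingSet F n d K`, where `K = k + c * min (log₂ n) δ` and `δ` is the maximal number of gates
on a path which are only of the second kind. In particular (`δ = 0`) `K = k` pairs of seeds suffice
for read-once formulas over arbitrary gates with at most `k + 1` arguments: this gives hitting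
sets of polynomial size for every bounded arity, at any depth.
-/

namespace Pool.Agent.Results.MP_e2be99_lc.ReadOnceArbitraryGates

open MvPolynomial Pool.Agent.W2helper21.ROG

open Classical in
/-- The explicit set of the points `∑_{l < K} y_l (L_0(u_l), …, L_{n-1}(u_l))`, where
`u_l ∈ {0, …, (n - 1) d}`, `y_l ∈ {0, …, d}` and `L_i(u) = lag n u i` are the Lagrange polynomials
on the nodes `0, …, n - 1`. -/
noncomputable def hittingSet (F : Type*) [Field F] (n d K : ℕ) : Finset (Fin n → F) :=
  Finset.univ.image fun (s : Fin K → Fin ((n - 1) * d + 1) × Fin (d + 1)) =>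
    fun i => ∑ l, (((s l).2 : ℕ) : F) * lag n (((s l).1 : ℕ) : F) i

universe u

/-- **Hitting sets for read-once formulas over arbitrary gates.** -/
theorem result (F : Type u) [Field F] [CharZero F] (n d k c K : ℕ) (hk : 1 ≤ k) :
    (hittingSet F n d K).card ≤ (((n - 1) * d + 1) * (d + 1)) ^ K ∧
    ∀ f : RFormula F n, f.ReadOnce → f.Admissible k c →
      k + c * min (Nat.log 2 n) (f.bigDepth k) ≤ K →
      f.toPoly.totalDegree ≤ d → f.toPoly ≠ 0 →
      ∃ a ∈ hittingSet F n d K, eval a f.toPoly ≠ 0 := by
  classical
  constructor
  · refine Finset.card_image_le.trans ?_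
    rw [Finset.card_univ, Fintype.card_fun, Fintype.card_prod, Fintype.card_fin,
      Fintype.card_fin, Fintype.card_fin]
  · intro f hro hadm hK hd hne
    have hk0 : k ≠ 0 := by omega
    have hmem : ∀ s : Fin K → Fin ((n - 1) * d + 1) × Fin (d + 1),
        pt F n s ∈ hittingSet F n d K := by
      intro s
      rw [hittingSet, Finset.mem_image]
      exact ⟨s, Finset.mem_univ _, rfl⟩
    by_cases hv : f.toPoly.vars.Nonempty
    · have hgood : Good K f.toPoly := by
        have h1 := RFormula.good_depth hk0 f hro hadm hv
        have h2 := RFormula.good_log hk0 f hro hadm hv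
        have h3 : f.vars.card ≤ n := by
          have := Finset.card_le_univ f.vars
          simpa using this
        have h4 : k + c * Nat.log 2 f.vars.card ≤ k + c * Nat.log 2 n :=
          Nat.add_le_add_left (Nat.mul_le_mul_left c (Nat.log_mono_right h3)) k
        rcases min_choice (Nat.log 2 n) (f.bigDepth k) with h | h
        · rw [h] at hK
          exact good_mono (h4.trans hK) h2
        · rw [h] at hK
          exact good_mono hK h1
      obtain ⟨a, ha, hane⟩ := good_hit hgood
      obtain ⟨s, hs⟩ := grid f.toPoly hd K 0 ⟨a, ha, by rwa [zero_add]⟩
      rw [zero_add] at hs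
      exact ⟨_, hmem s, hs⟩
    · rw [Finset.not_nonempty_iff_eq_empty, vars_eq_empty_iff_eq_C] at hv
      refine ⟨_, hmem fun _ => (0, 0), ?_⟩
      rw [hv, eval_C]
      intro h
      rw [h, map_zero] at hv
      exact hne hv

end Pool.Agent.Results.MP_e2be99_lc.ReadOnceArbitraryGates
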