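import Pool.Agent.W2helper21.ROG.Claim

/-!
# Sparse outer polynomials, affine outer polynomials, few variables
-/

namespace Pool.Agent.W2helper21.ROG

open MvPolynomial

variable {F : Type*} [Field F] [CharZero F] {n : ℕ}

omit [CharZero F] in
theorem NZ_mono {k l : ℕ} (hkl : k ≤ l) {P : MvPolynomial (Fin n) F} (h : NZ k P) : NZ l P := by
  obtain ⟨a, ha, h⟩ := h
  exact ⟨a, Im_mono hkl ha, h⟩

theorem E_of_NZ {k p : ℕ} {P : MvPolynomial (Fin n) F} (h : NZ k P) (hp : Hom p P)
    (hp0 : p ≠ 0) : E k P := by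
  obtain ⟨a, ha, hne⟩ := h
  obtain ⟨i, t, h⟩ := euler hp hp0 hne
  exact ⟨i, t, a, ha, h⟩

/-- sparse outer polynomials, sharper form -/
theorem hit_sparse2 {M : ℕ} {A : Fin M → MvPolynomial (Fin n) F}
    (hdisj : Pairwise fun j j' => Disjoint (A j).vars (A j').vars) (k' : ℕ) :
    ∀ (r : ℕ) (Ψ : MvPolynomial (Fin M) F), Ψ ≠ 0 → Ψ.support.card < 2 ^ (r + 1) →
      (∀ m ∈ Ψ.vars, NZ k' (A m) ∧ E k' (A m)) →
      ∃ a ∈ Im F n (k' + r), eval (fun j => eval a (A j)) Ψ ≠ 0 := by
  intro r
  induction r with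
  | zero =>
    intro Ψ h0 hcard hE
    have h1 : Ψ.support.card = 1 := by
      have := Finset.card_pos.mpr (support_nonempty.mpr h0)
      omega
    obtain ⟨d, hd⟩ := Finset.card_eq_one.mp h1
    have hΨ : Ψ = monomial d (coeff d Ψ) := by
      conv_lhs => rw [Ψ.as_sum, hd, Finset.sum_singleton]
    have hcoeff : coeff d Ψ ≠ 0 := by
      rw [← mem_support_iff, hd]; simp
    obtain ⟨a, ha, hne⟩ := Im_irred (F := F) (n := n) (k := k' + 0) d.support A (by
      intro m hm
      have hmv : m ∈ Ψ.vars := by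
        rw [mem_vars_iff_mem_support]
        exact ⟨d, by rw [hd]; simp, hm⟩
      exact (hE m hmv).1)
    refine ⟨a, ha, ?_⟩
    rw [hΨ, eval_monomial]
    refine mul_ne_zero hcoeff ?_
    rw [Finsupp.prod, Finset.prod_ne_zero_iff]
    intro m hm
    exact pow_ne_zero _ (hne m hm)
  | succ r ih =>
    intro Ψ h0 hcard hE
    by_cases h1 : Ψ.support.card < 2 ^ (r + 1)
    · obtain ⟨a, ha, hne⟩ := ih Ψ h0 h1 hE
      exact ⟨a, Im_mono (by omega) ha, hne⟩
    · have h2 : 1 < Ψ.support.card := by
        have : 2 ≤ 2 ^ (r + 1) := by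
          calc 2 = 2 ^ 1 := rfl
            _ ≤ 2 ^ (r + 1) := Nat.pow_le_pow_right (by norm_num) (by omega)
        omega
      obtain ⟨d, hd, d', hd', hdd⟩ := Finset.one_lt_card.mp h2
      obtain ⟨m, hm⟩ : ∃ m, d m ≠ d' m := by
        by_contra hcon
        push Not at hcon
        exact hdd (Finsupp.ext hcon)
      have hmv : m ∈ Ψ.vars := by
        rw [mem_vars_iff_mem_support]
        by_cases h : d m = 0
        · exact ⟨d', hd', by rw [Finsupp.mem_support_iff]; exact fun h' => hm (h.trans h'.symm)⟩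
        · exact ⟨d, hd, Finsupp.mem_support_iff.mpr h⟩
      have key : ∃ d'' ∈ Ψ.support, (cf m (d'' m) Ψ).support.card < 2 ^ (r + 1) := by
        by_contra hcon
        push Not at hcon
        have a1 := (hcon d hd).trans (card_cf m (d m) Ψ)
        have a2 := (hcon d' hd').trans (card_cf m (d' m) Ψ)
        have hdis : Disjoint (Ψ.support.filter fun x => x m = d m)
            (Ψ.support.filter fun x => x m = d' m) := by
          rw [Finset.disjoint_left]
          intro x hx hx'
          rw [Finset.mem_filter] at hx hx'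
          exact hm (hx.2.symm.trans hx'.2)
        have a3 : (Ψ.support.filter fun x => x m = d m).card +
            (Ψ.support.filter fun x => x m = d' m).card ≤ Ψ.support.card := by
          rw [← Finset.card_union_of_disjoint hdis]
          apply Finset.card_le_card
          apply Finset.union_subset <;> exact Finset.filter_subset _ _
        have a4 : 2 ^ (r + 1 + 1) = 2 ^ (r + 1) + 2 ^ (r + 1) := by ring
        omega
      obtain ⟨d'', hd'', hlt⟩ := key
      have hsub := vars_cf m (d'' m) Ψ
      have := ih (cf m (d'' m) Ψ) (cf_ne_zero m Ψ hd'') hlt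
        (fun l hl => hE l (Finset.mem_of_mem_erase (hsub hl)))
      have h3 := step hdisj Ψ m (d'' m) (show k' ≤ k' + r by omega) (hE m hmv).2 this
      exact h3

/-- The first degeneration. -/
theorem degenerate {M k : ℕ} (Φ : MvPolynomial (Fin M) F)
    (P : Fin M → MvPolynomial (Fin n) F)
    (hvan : ∀ x ∈ Im F n (k + 1), eval (fun m => eval x (P m)) Φ = 0) {N : ℕ}
    (hN : ∀ α ∈ Φ.support, N ≤ wt (fun m => ordY k (P m)) α) :
    ∀ a ∈ Im F n k, ∀ w : F, eval (fun m => (cw (P m) (ordY k (P m)) a).eval w)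
      (part (fun m => ordY k (P m)) N Φ) = 0 := by
  intro a ha w
  have h1 : aeval (fun m => dir a (lag n w) (P m)) Φ = (0 : Polynomial F) := by
    apply Polynomial.funext
    intro y
    rw [Polynomial.eval_zero, ← hvan _ (Im_add ha w y)]
    have h2 : (aeval (fun m => dir a (lag n w) (P m)) Φ : Polynomial F).eval y =
        Polynomial.aeval y (aeval (fun m => dir a (lag n w) (P m)) Φ : Polynomial F) := by
      rw [Polynomial.coe_aeval_eq_eval]
    rw [h2, MvPolynomial.comp_aeval_apply, ← MvPolynomial.aeval_eq_eval]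
    change aeval _ Φ = aeval _ Φ
    congr 2
    funext m
    rw [Polynomial.coe_aeval_eq_eval, eval_dir]
  have h3 := coeff_init (o := fun m => ordY k (P m)) (N := N) (Φ := Φ)
    (p := fun m => dir a (lag n w) (P m)) (by
      intro m _ i hi
      rw [← eval_cw, ordY_min hi ha, Polynomial.eval_zero]) hN
  rw [h1, Polynomial.coeff_zero] at h3
  rw [h3]
  congr 2
  funext m
  rw [eval_cw]

/-- Sparse outer polynomials with one heavy argument. -/
theorem claim_sparse {M k k' c : ℕ} (Ψ : MvPolynomial (Fin M) F) (hΨ : Ψ ≠ 0)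
    (P : Fin M → MvPolynomial (Fin n) F) (p : Fin M → ℕ)
    (hdisj : Pairwise fun j j' => Disjoint (P j).vars (P j').vars)
    (hhom : ∀ m ∈ Ψ.vars, Hom (p m) (P m)) (hpos : ∀ m ∈ Ψ.vars, p m ≠ 0)
    (j : Fin M) (hj : j ∈ Ψ.vars → NZ k (P j)) (hother : ∀ m ∈ Ψ.vars, m ≠ j → NZ k' (P m))
    (hc : Ψ.support.card < 2 ^ c) (hk : k' + c ≤ k) : NZ k (bind₁ P Ψ) := by
  classical
  obtain ⟨c, rfl⟩ : ∃ c', c = c' + 1 := by
    refine ⟨c - 1, ?_⟩
    have := Finset.card_pos.mpr (support_nonempty.mpr hΨ)
    by_contra h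
    have h0 : c = 0 := by omega
    rw [h0, pow_zero] at hc
    omega
  by_cases hjv : j ∈ Ψ.vars
  swap
  · obtain ⟨a, ha, hne⟩ := hit_sparse2 hdisj k' c Ψ hΨ hc (fun m hm => by
      have h1 : m ≠ j := fun h => hjv (h ▸ hm)
      exact ⟨hother m hm h1, E_of_NZ (hother m hm h1) (hhom m hm) (hpos m hm)⟩)
    exact ⟨a, Im_mono (by omega) ha, by rwa [eval_bind]⟩
  obtain ⟨k, rfl⟩ : ∃ k'', k = k'' + 1 := ⟨k - 1, by omega⟩
  have hcoef : ∀ d ∈ Ψ.support, ∃ a ∈ Im F n k, eval (fun m => eval a (P m)) (cf j (d j) Ψ) ≠ 0 := by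
    intro d hd
    have hsub := vars_cf j (d j) Ψ
    obtain ⟨a, ha, hne⟩ := hit_sparse2 hdisj k' c (cf j (d j) Ψ) (cf_ne_zero j Ψ hd)
      (lt_of_le_of_lt ((card_cf j (d j) Ψ).trans (Finset.card_filter_le _ _)) hc) (fun m hm => by
        have h1 := Finset.mem_erase.mp (hsub hm)
        exact ⟨hother m h1.2 h1.1, E_of_NZ (hother m h1.2 h1.1) (hhom m h1.2) (hpos m h1.2)⟩)
    exact ⟨a, Im_mono (by omega) ha, hne⟩
  by_cases hz : NZ k (P j)
  · obtain ⟨d, hd⟩ := support_nonempty.mpr hΨ
    obtain ⟨a, ha, hne⟩ := step hdisj Ψ j (d j) le_rfl (E_of_NZ hz (hhom j hjv) (hpos j hjv))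
      (hcoef d hd)
    exact ⟨a, ha, by rwa [eval_bind]⟩
  · by_contra hcon
    have hvan : ∀ x ∈ Im F n (k + 1), eval (fun m => eval x (P m)) Ψ = 0 := by
      intro x hx
      by_contra hne
      exact hcon ⟨x, hx, by rwa [eval_bind]⟩
    -- the weight is `ordY k (P j)` times the exponent of `Y_j`
    set o : Fin M → ℕ := fun m => ordY k (P m) with ho
    have hoj : 1 ≤ o j := ordY_pos (hj hjv) hz
    have hNZother : ∀ m ∈ Ψ.vars, m ≠ j → NZ k (P m) := fun m hm hmj =>
      NZ_mono (by omega) (hother m hm hmj)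
    have hwt : ∀ α ∈ Ψ.support, wt o α = o j * α j := by
      intro α hα
      rw [wt, Finset.sum_eq_single j]
      · intro m _ hmj
        by_cases hm : α m = 0
        · rw [hm, mul_zero]
        · have hmv : m ∈ Ψ.vars := by
            rw [mem_vars_iff_mem_support]
            exact ⟨α, hα, Finsupp.mem_support_iff.mpr hm⟩
          have : o m = 0 := ordY_of_NZ (hNZother m hmv hmj)
          rw [this, zero_mul]
      · intro h; exact (h (Finset.mem_univ _)).elim
    obtain ⟨d, hd, hmin⟩ := Finset.exists_min_image Ψ.support (fun α => α j)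
      (support_nonempty.mpr hΨ)
    have hN : ∀ α ∈ Ψ.support, o j * d j ≤ wt o α := by
      intro α hα
      rw [hwt α hα]
      exact Nat.mul_le_mul_left _ (hmin α hα)
    have h1 := degenerate Ψ P hvan hN
    have hfilter : (Ψ.support.filter fun α => wt o α = o j * d j) =
        Ψ.support.filter fun α => α j = d j := by
      apply Finset.filter_congr
      intro α hα
      rw [hwt α hα]
      constructor
      · intro h; exact Nat.eq_of_mul_eq_mul_left (by omega) h
      · intro h; rw [h]
    have hfac : ∀ z : Fin M → F, eval z (part o (o j * d j) Ψ) =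
        z j ^ (d j) * eval z (cf j (d j) Ψ) := by
      intro z
      rw [eval_part, eval_cf, hfilter, Finset.mul_sum]
      apply Finset.sum_congr rfl
      intro α hα
      rw [← Finset.mul_prod_erase Finset.univ _ (Finset.mem_univ j), (Finset.mem_filter.mp hα).2]
      ring
    -- common nonzero point
    obtain ⟨a₁, ha₁, hne₁⟩ := ordY_spec (hj hjv)
    obtain ⟨w, hw⟩ : ∃ w : F, (cw (P j) (o j) a₁).eval w ≠ 0 := by
      by_contra hcon2
      push Not at hcon2
      apply hne₁
      apply Polynomial.funext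
      intro w
      rw [Polynomial.eval_zero]
      exact hcon2 w
    obtain ⟨a₂, ha₂, hne₂⟩ := hcoef d hd
    obtain ⟨b, hb, hbne⟩ := Im_irred (F := F) (n := n) (k := k) (Finset.univ : Finset Bool)
      (fun s => if s then bind₁ P (cf j (d j) Ψ) else tc (P j) (o j) w 0) (by
        intro s _
        cases s with
        | true =>
          refine ⟨a₂, ha₂, ?_⟩
          simp only [if_true]
          rwa [eval_bind]
        | false =>
          refine ⟨a₁, ha₁, ?_⟩
          simp only [Bool.false_eq_true, if_false]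
          rw [eval_tc, Polynomial.taylor_coeff_zero]
          exact hw)
    have h2 := hbne true (Finset.mem_univ _)
    have h3 := hbne false (Finset.mem_univ _)
    simp only [if_true, Bool.false_eq_true, if_false] at h2 h3
    rw [eval_bind] at h2
    rw [eval_tc, Polynomial.taylor_coeff_zero] at h3
    have h4 := h1 b hb w
    rw [hfac] at h4
    rcases mul_eq_zero.mp h4 with h5 | h5
    · by_cases hd0 : d j = 0
      · rw [hd0, pow_zero] at h5
        exact one_ne_zero h5
      · exact h3 ((pow_eq_zero_iff hd0).mp h5)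
    · apply h2
      rw [← h5]
      apply eval_congr_vars
      intro m hm
      have hm' := Finset.mem_erase.mp (vars_cf _ _ _ hm)
      have h6 : o m = 0 := ordY_of_NZ (hNZother m hm'.2 hm'.1)
      change eval b (P m) = (cw (P m) (o m) b).eval w
      rw [h6, cw_zero, Polynomial.eval_C]

/-- weighted homogeneous polynomials have a Newton polytope of smaller dimension -/
theorem finrank_lt_vars {M : ℕ} {Ψ : MvPolynomial (Fin M) F} {w : Fin M → ℕ} {N : ℕ}
    (hw : ∀ m ∈ Ψ.vars, w m ≠ 0) (hN : ∀ α ∈ Ψ.support, wt w α = N) (hne : Ψ.vars.Nonempty) :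
    Module.finrank ℚ (nspace Ψ) < Ψ.vars.card := by
  classical
  let W : Submodule ℚ (Fin M → ℚ) :=
    Submodule.span ℚ ((Ψ.vars.image fun m => (Pi.single m (1 : ℚ) : Fin M → ℚ)) :
      Finset (Fin M → ℚ))
  have hW : Module.finrank ℚ W ≤ Ψ.vars.card :=
    (finrank_span_finset_le_card _).trans Finset.card_image_le
  have hle : nspace Ψ ≤ W ⊓ LinearMap.ker (pair w) := by
    apply nspace_le
    intro α hα β hβ
    refine ⟨?_, ?_⟩
    · have : ev α - ev β = ∑ m ∈ Ψ.vars, ((ev α - ev β) m) • (Pi.single m (1 : ℚ) : Fin M → ℚ) := by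
        funext l
        rw [Finset.sum_apply]
        simp only [Pi.smul_apply, smul_eq_mul]
        by_cases hl : l ∈ Ψ.vars
        · rw [Finset.sum_eq_single l]
          · simp
          · intro m _ hml
            rw [Pi.single_eq_of_ne (fun h => hml h.symm), mul_zero]
          · intro h; exact (h hl).elim
        · rw [Finset.sum_eq_zero]
          · exact eq_zero_of_mem_nspace (sub_mem_nspace hα hβ) hl
          · intro m hm
            have hlm : l ≠ m := by
              rintro rfl
              exact hl hm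
            rw [Pi.single_eq_of_ne hlm, mul_zero]
      rw [this]
      apply Submodule.sum_mem
      intro m hm
      apply Submodule.smul_mem
      apply Submodule.subset_span
      rw [Finset.mem_coe, Finset.mem_image]
      exact ⟨m, hm, rfl⟩
    · change pair w (ev α - ev β) = 0
      rw [map_sub, pair_ev, pair_ev, hN α hα, hN β hβ, sub_self]
  obtain ⟨m, hm⟩ := hne
  have hmem : (Pi.single m (1 : ℚ) : Fin M → ℚ) ∈ W := by
    apply Submodule.subset_span
    rw [Finset.mem_coe, Finset.mem_image]
    exact ⟨m, hm, rfl⟩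
  have hlt : nspace Ψ < W := by
    refine lt_of_le_of_lt hle (lt_of_le_of_ne inf_le_left ?_)
    intro heq
    rw [← heq] at hmem
    have h1 : pair w (Pi.single m (1 : ℚ)) = 0 := hmem.2
    rw [pair_apply, Finset.sum_eq_single m] at h1
    · rw [Pi.single_eq_same, mul_one] at h1
      exact hw m hm (by exact_mod_cast h1)
    · intro l _ hl
      rw [Pi.single_eq_of_ne hl, mul_zero]
    · intro h; exact (h (Finset.mem_univ _)).elim
  exact lt_of_lt_of_le (Submodule.finrank_lt_finrank_of_lt hlt) hW

/-- sum of two -/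
theorem claim_add {k p : ℕ} (hk : k ≠ 0) (hp : p ≠ 0) {P Q : MvPolynomial (Fin n) F}
    (hdisj : Disjoint P.vars Q.vars) (hP : Hom p P) (hQ : Hom p Q) (hPn : NZ k P) (hQn : NZ k Q) :
    NZ k (P + Q) := by
  classical
  let Φ : MvPolynomial (Fin 2) F := X 0 + X 1
  have hc0 : coeff (Finsupp.single 0 1) Φ = 1 := by
    have h01 : (Finsupp.single 1 1 : Fin 2 →₀ ℕ) ≠ Finsupp.single 0 1 := by
      intro h
      have := DFunLike.congr_fun h 0
      simp at this
    rw [coeff_add, coeff_X', coeff_X', if_pos rfl, if_neg h01, add_zero]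
  have hΦ : Φ ≠ 0 := by
    intro h
    rw [h, coeff_zero] at hc0
    exact zero_ne_one hc0
  have hsupp : ∀ α ∈ Φ.support, wt (fun _ => 1) α = 1 := by
    intro α hα
    have h1 : α ∈ ({Finsupp.single 0 1} ∪ {Finsupp.single 1 1} : Finset (Fin 2 →₀ ℕ)) := by
      refine Finset.mem_of_subset (support_add.trans ?_) hα
      apply Finset.union_subset_union
      · rw [support_X]
      · rw [support_X]
    rw [Finset.mem_union, Finset.mem_singleton, Finset.mem_singleton] at h1
    rcases h1 with rfl | rfl <;> simp [wt]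
  have hvne : Φ.vars.Nonempty := by
    refine ⟨0, ?_⟩
    rw [mem_vars_iff_mem_support]
    refine ⟨Finsupp.single 0 1, ?_, by simp⟩
    rw [mem_support_iff, hc0]
    exact one_ne_zero
  have hdim : Module.finrank ℚ (nspace Φ) ≤ k := by
    have h1 := finrank_lt_vars (Ψ := Φ) (w := fun _ => 1) (by intro m _; exact one_ne_zero)
      hsupp hvne
    have h2 : Φ.vars.card ≤ 2 := by
      have := Finset.card_le_univ Φ.vars
      simpa using this
    omega
  have := main_claim k Φ ![P, Q] (fun _ => p) hΦ (by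
    intro i j hij
    fin_cases i <;> fin_cases j
    · exact absurd rfl hij
    · exact hdisj
    · exact hdisj.symm
    · exact absurd rfl hij) (by
    intro m _
    fin_cases m
    · exact hP
    · exact hQ) (fun _ _ _ => hp) (by
    intro m _
    fin_cases m
    · exact hPn
    · exact hQn) hdim
  simpa [Φ] using this

end Pool.Agent.W2helper21.ROG
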